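import Pool.Agent.Lib.MP_3d3918_nt.H97.Tree
import Pool.Agent.Lib.MP_3d3918_nt.Main

/-!
# All elliptic curves and the inert points
-/

set_option autoImplicit false
set_option linter.unusedSectionVars false
set_option linter.style.haveILetI false

open Filter Topology TensorProduct WeierstrassCurve

namespace Pool.Agent.MP_3d3918.H97

open Pool.Agent.MP_3d3918

/-- The formula for the inert points of `K' / K` follows from Nagao's formula. -/
theorem inert_of_all {K K' : Type} [Field K] [CharZero K] [Field K'] [CharZero K'] [Algebra K K']
    [FiniteDimensional K K'] [IsGalois K K'] (U : Set ℂ) (n : ℕ) (h : AllNagao U n)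
    (hK : FGField K) (hd : dim K = n) (E : WeierstrassCurve K) [E.IsElliptic]
    (hj : Transcendental ℚ E.j) : InertNagao K' U E := by
  refine inert_of_nagao (K := K) (K' := K') U E fun H => ?_
  have h1 : dim (IntermediateField.fixedField H) = n := by
    rw [dim_eq (K := K) (L := IntermediateField.fixedField H), hd]
  refine h _ (fgField_finite (K := K) hK) h1 _ ?_
  rw [WeierstrassCurve.map_j]
  intro h3
  exact hj ((isAlgebraic_algebraMap_iff
    (algebraMap K (IntermediateField.fixedField H)).injective).1 h3)

/-- The formula for the inert points of `N / F` follows from Nagao's formula. -/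
theorem pair_of_all {K : Type} [Field K] [CharZero K] (U : Set ℂ) (n : ℕ) (h : AllNagao U n)
    (hK : FGField K) (hd : dim K = n) (E : WeierstrassCurve K) [E.IsElliptic]
    (hj : Transcendental ℚ E.j) {F N : IntermediateField K (AlgebraicClosure K)} (hFN : F ≤ N)
    [FiniteDimensional K N] [IsGalois K N] :
    InertPair U E F N hFN := by
  letI := incAlg hFN
  have tow := inc_tower' hFN
  have finF : FiniteDimensional K F := FiniteDimensional.of_injective
    (IntermediateField.inclusion hFN).toLinearMap (IntermediateField.inclusion hFN).injective
  have fin : FiniteDimensional F N := Module.Finite.of_restrictScalars_finite K F N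
  have gal : IsGalois F N := IsGalois.tower_top_of_isGalois K F N
  change InertNagao N U (E.map (algebraMap K F))
  refine inert_of_all (K := F) (K' := N) U n h (fgField_finite hK) ?_ _ ?_
  · rw [dim_eq (K := K) (L := F), hd]
  · rw [WeierstrassCurve.map_j]
    intro h3
    exact hj ((isAlgebraic_algebraMap_iff (algebraMap K F).injective).1 h3)

theorem all_iff_inert (U : Set ℂ) (n : ℕ)
    (N : ℕ → IntermediateField (RatField n) (AlgebraicClosure (RatField n))) (hmono : Monotone N)
    (hfin : ∀ i, FiniteDimensional (RatField n) (N i)) (hgal : ∀ i, IsGalois (RatField n) (N i))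
    (hex : ∀ x, ∃ i, x ∈ N i) :
    AllNagao U (n + 1) ↔ ∀ σ : Gal(AlgebraicClosure (RatField n)/RatField n), ∃ᶠ i in atTop,
      InertPair U (univCurve n) (fixedIn (N i) σ) (N i) (fixedIn_le (N i) σ) := by
  constructor
  · intro h σ
    refine Frequently.of_forall fun i => ?_
    have := hfin i
    have := hgal i
    refine pair_of_all U (n + 1) h (fgField_ratField n) (dim_ratField n) (univCurve n) ?_
      (fixedIn_le (N i) σ)
    rw [univCurve_j]
    exact tvar_transcendental n
  · intro h
    refine all_of_univ U n fun L _ => ?_
    exact nagao_of_pairs U (univCurve n) N hmono hfin hgal hex h L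

end Pool.Agent.MP_3d3918.H97
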