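import Mathlib

/-!
# Automorphisms and squares

Let `K` be the field of rational functions in one variable over a field `k`, `L / K` a finite Galois
extension and `s ≠ 1` an element of the Galois group. There is `a` in `L` such that `s a / a` is not
a square.
-/

set_option autoImplicit false

open Polynomial IsDedekindDomain WithZero

namespace Pool.Agent.MP_3d3918.H97.Centre

section deg

variable {k : Type*} [Field k]

theorem exists_eval_degree (f : (Polynomial k)[X]) (hf : f.Monic) (h1 : f.natDegree ≠ 0) (N : ℕ) :
    ∃ c : Polynomial k, N < (f.eval c).natDegree := by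
  obtain ⟨m, hm⟩ : ∃ m, ∀ i, i < f.natDegree → (f.coeff i).natDegree < m := by
    refine ⟨(Finset.range f.natDegree).sup (fun i => (f.coeff i).natDegree) + 1, fun i hi => ?_⟩
    exact Nat.lt_succ_of_le
      (Finset.le_sup (f := fun i => (f.coeff i).natDegree) (Finset.mem_range.2 hi))
  refine ⟨X ^ (m + N + 1), ?_⟩
  set M := m + N + 1 with hM
  have h2 : f.eval (X ^ M) = (X ^ M) ^ f.natDegree +
      ∑ i ∈ Finset.range f.natDegree, f.coeff i * (X ^ M) ^ i := by
    conv_lhs => rw [hf.as_sum]
    simp [eval_add, eval_finsetSum]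
  have h3 : (∑ i ∈ Finset.range f.natDegree, f.coeff i * (X ^ M : k[X]) ^ i).natDegree <
      ((X ^ M : k[X]) ^ f.natDegree).natDegree := by
    rw [← pow_mul, natDegree_X_pow]
    have h4 : ∀ i ∈ Finset.range f.natDegree,
        (f.coeff i * (X ^ M : k[X]) ^ i).natDegree ≤ M * f.natDegree - 1 := by
      intro i hi
      have h5 := natDegree_mul_le (p := f.coeff i) (q := (X ^ M : k[X]) ^ i)
      rw [← pow_mul, natDegree_X_pow] at h5
      have h6 := hm i (Finset.mem_range.1 hi)
      have h7 : M * (i + 1) ≤ M * f.natDegree :=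
        Nat.mul_le_mul_left _ (Finset.mem_range.1 hi)
      rw [← pow_mul]
      rw [mul_add, mul_one] at h7
      omega
    have h5 := natDegree_sum_le_of_forall_le _ _ h4
    have h6 : 0 < M * f.natDegree := Nat.mul_pos (by omega) (Nat.pos_of_ne_zero h1)
    omega
  rw [h2, natDegree_add_eq_left_of_natDegree_lt h3, ← pow_mul, natDegree_X_pow]
  have h6 : M * 1 ≤ M * f.natDegree := Nat.mul_le_mul_left _ (Nat.pos_of_ne_zero h1)
  omega

end deg

section ring

variable {k B G : Type*} [Field k] [CommRing B] [IsDomain B] [Algebra (Polynomial k) B]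
  [FaithfulSMul (Polynomial k) B] [Group G] [Finite G] [MulSemiringAction G B]
  [SMulCommClass G (Polynomial k) B] [Algebra.IsInvariant (Polynomial k) B G]

omit [IsDomain B] [FaithfulSMul k[X] B] [Finite G] [Algebra.IsInvariant k[X] B G] in
theorem smul_alg (g : G) (c : Polynomial k) :
    g • algebraMap (Polynomial k) B c = algebraMap (Polynomial k) B c := by
  rw [Algebra.algebraMap_eq_smul_one, smul_comm, smul_one]

variable (k)

include k

/-- An automorphism which preserves all principal ideals is trivial. -/
theorem fixed_of_dvd (g : G) (h : ∀ b : B, b ∣ g • b) (x : B) : g • x = x := by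
  classical
  have := Fintype.ofFinite G
  by_contra hne
  have hδ : g • x - x ≠ 0 := sub_ne_zero.2 hne
  set δ := g • x - x with hδd
  have hinj : Function.Injective (algebraMap (Polynomial k) B) :=
    FaithfulSMul.algebraMap_injective _ _
  obtain ⟨p, hp1, hp2, hp3⟩ := Polynomial.lifts_and_natDegree_eq_and_monic
    (Algebra.IsInvariant.charpoly_mem_lifts (Polynomial k) B G x)
    (MulSemiringAction.monic_charpoly G x)
  obtain ⟨D, hD⟩ := Algebra.IsInvariant.isInvariant (A := Polynomial k) (G := G)
    (∏ h : G, h • δ) (fun u => Finset.smul_prod_perm _ _)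
  have hD0 : D ≠ 0 := by
    rintro rfl
    rw [map_zero] at hD
    obtain ⟨u, -, hu⟩ := Finset.prod_eq_zero_iff.1 hD.symm
    exact hδ (by rwa [smul_eq_zero_iff_eq] at hu)
  have hdeg : p.natDegree ≠ 0 := by
    rw [hp2, MulSemiringAction.charpoly_eq, natDegree_prod_of_monic _ _
      (fun _ _ => monic_X_sub_C _)]
    simp
  obtain ⟨c, hc⟩ := exists_eval_degree p hp3 hdeg D.natDegree
  have hpc : algebraMap (Polynomial k) B (p.eval c) =
      ∏ u : G, u • (algebraMap (Polynomial k) B c - x) := by
    have h1 : algebraMap (Polynomial k) B (p.eval c) =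
        (p.map (algebraMap (Polynomial k) B)).eval (algebraMap (Polynomial k) B c) := by
      rw [eval_map, eval₂_hom]
    rw [h1, hp1, MulSemiringAction.charpoly_eq, eval_prod]
    refine Finset.prod_congr rfl fun u _ => ?_
    rw [eval_sub, eval_X, eval_C, smul_sub, smul_alg]
  have hdvd : ∀ u : G, u • (algebraMap (Polynomial k) B c - x) ∣ u • δ := by
    intro u
    have h1 : (algebraMap (Polynomial k) B c - x) ∣ δ := by
      have h2 := h (algebraMap (Polynomial k) B c - x)
      have h3 := dvd_sub (dvd_refl (algebraMap (Polynomial k) B c - x)) h2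
      rw [smul_sub, smul_alg] at h3
      have h4 : algebraMap (Polynomial k) B c - x - (algebraMap (Polynomial k) B c - g • x) =
          δ := by
        rw [hδd]
        ring
      rwa [h4] at h3
    exact map_dvd (MulSemiringAction.toRingHom G B u) h1
  obtain ⟨e, he⟩ : algebraMap (Polynomial k) B (p.eval c) ∣ algebraMap (Polynomial k) B D := by
    rw [hpc, hD]
    exact Finset.prod_dvd_prod_of_dvd _ _ fun u _ => hdvd u
  have hpc0 : p.eval c ≠ 0 := by
    intro h0
    rw [h0, natDegree_zero] at hc
    exact absurd hc (Nat.not_lt_zero _)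
  obtain ⟨e', rfl⟩ := Algebra.IsInvariant.isInvariant (A := Polynomial k) (G := G) e (by
    intro u
    have h1 := congrArg (fun z => u • z) he
    simp only [smul_mul', smul_alg] at h1
    rw [he] at h1
    exact (mul_left_cancel₀ (by
      rw [Ne, map_eq_zero_iff _ hinj]
      exact hpc0) h1).symm)
  rw [← map_mul] at he
  have h2 := hinj he
  have h3 : (p.eval c).natDegree ≤ D.natDegree := natDegree_le_of_dvd ⟨e', h2⟩ hD0
  omega

variable [IsDedekindDomain B]

/-- There is a prime ideal which is not preserved. -/
theorem exists_prime (g : G) (x : B) (hx : g • x ≠ x) :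
    ∃ v : HeightOneSpectrum B, v.asIdeal.map (MulSemiringAction.toRingEquiv G B g) ≠ v.asIdeal := by
  by_contra hcon
  push Not at hcon
  set e := MulSemiringAction.toRingEquiv G B g with he
  have h1 : ∀ I : Ideal B, I.map e = I := by
    intro I
    induction I using UniqueFactorizationMonoid.induction_on_prime with
    | h₁ => exact Ideal.map_bot
    | h₂ J hJ =>
      rw [Ideal.isUnit_iff.1 hJ]
      exact Ideal.map_top _
    | h₃ J P hJ hP hJP =>
      have hP0 : P ≠ ⊥ := hP.ne_zero
      rw [Ideal.map_mul, hJP, hcon ⟨P, (Ideal.prime_iff_isPrime hP0).1 hP, hP0⟩]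
  apply hx
  refine fixed_of_dvd k g (fun b => ?_) x
  have h2 := h1 (Ideal.span {b})
  rw [Ideal.map_span, Set.image_singleton] at h2
  rw [← Ideal.mem_span_singleton, ← h2]
  exact Ideal.subset_span rfl

/-- An element whose image has another valuation. -/
theorem exists_elt (g : G) (x : B) (hx : g • x ≠ x) :
    ∃ (v : HeightOneSpectrum B) (a : B), v.intValuation a = exp (-1 : ℤ) ∧
      v.intValuation (g • a) = 1 := by
  obtain ⟨v, hv⟩ := exists_prime k g x hx
  set e := MulSemiringAction.toRingEquiv G B g with he
  set Q := v.asIdeal.comap e with hQ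
  have hmax : v.asIdeal.IsMaximal := v.isMaximal
  have hQmax : Q.IsMaximal := Ideal.comap_isMaximal_of_equiv e
  have hne : v.asIdeal ≠ Q := by
    intro h
    apply hv
    conv_lhs => rw [h, hQ]
    exact Ideal.map_comap_of_surjective e e.surjective _
  have hcop : v.asIdeal ^ 2 ⊔ Q = ⊤ :=
    Ideal.pow_sup_eq_top (hmax.coprime_of_ne hQmax hne)
  obtain ⟨u, hu, f, hf, huf⟩ := Submodule.mem_sup.1 (by
    rw [hcop]
    exact Submodule.mem_top : (1 : B) ∈ v.asIdeal ^ 2 ⊔ Q)
  obtain ⟨π, hπ⟩ := v.intValuation_exists_uniformizer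
  have hu2 : v.intValuation u ≤ exp (-2 : ℤ) := by
    have := (v.intValuation_le_pow_iff_mem u 2).2 hu
    exact_mod_cast this
  have hfP : f ∉ v.asIdeal := by
    intro h
    apply hmax.ne_top
    rw [Ideal.eq_top_iff_one, ← huf]
    exact add_mem (Ideal.pow_le_self two_ne_zero hu) h
  have hf1 : v.intValuation f = 1 := by
    rw [v.intValuation_eq_one_iff]
    exact hfP
  refine ⟨v, π * f + u, ?_, ?_⟩
  · rw [Valuation.map_add_eq_of_lt_left]
    · rw [map_mul, hπ, hf1, mul_one]
    · rw [map_mul, hπ, hf1, mul_one]
      refine hu2.trans_lt ?_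
      rw [exp_lt_exp]
      norm_num
  · rw [v.intValuation_eq_one_iff]
    intro h
    have h1 : π * f + u ∈ Q := h
    have h2 : u ∈ Q := by
      have := sub_mem h1 (Ideal.mul_mem_left Q π hf)
      rwa [add_sub_cancel_left] at this
    apply hQmax.ne_top
    rw [Ideal.eq_top_iff_one, ← huf]
    exact add_mem h2 hf

end ring

section field

variable {k K L : Type*} [Field k] [Field K] [Field L] [Algebra (Polynomial k) K]
  [IsFractionRing (Polynomial k) K] [Algebra K L] [FiniteDimensional K L] [IsGalois K L]

include k in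
/-- There is `a` such that `s a / a` is not a square. -/
theorem exists_nonsquare (s : Gal(L/K)) (hs : s ≠ 1) :
    ∃ a : L, a ≠ 0 ∧ ¬ ∃ b : L, s a = a * b ^ 2 := by
  letI : Algebra (Polynomial k) L := ((algebraMap K L).comp (algebraMap (Polynomial k) K)).toAlgebra
  have tow : IsScalarTower (Polynomial k) K L := IsScalarTower.of_algebraMap_eq fun _ => rfl
  let B := integralClosure (Polynomial k) L
  have frac : IsFractionRing B L :=
    integralClosure.isFractionRing_of_finite_extension K L
  have ded : IsDedekindDomain B := integralClosure.isDedekindDomain (Polynomial k) K L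
  letI act : MulSemiringAction Gal(L/K) B :=
    IsIntegralClosure.MulSemiringAction (Polynomial k) K L B
  have inv : Algebra.IsInvariant (Polynomial k) B Gal(L/K) :=
    Algebra.isInvariant_of_isGalois (Polynomial k) K L B
  have hact : ∀ (g : Gal(L/K)) (b : B), algebraMap B L (g • b) = g (algebraMap B L b) :=
    fun g b => algebraMap_galRestrict_apply (Polynomial k) g b
  have comm : SMulCommClass Gal(L/K) (Polynomial k) B := ⟨fun g a b =>
    map_smul (galRestrict (Polynomial k) K L B g) a b⟩
  have faith : FaithfulSMul (Polynomial k) B := by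
    rw [faithfulSMul_iff_algebraMap_injective]
    intro a b hab
    have h1 : algebraMap (Polynomial k) L a = algebraMap (Polynomial k) L b := by
      rw [IsScalarTower.algebraMap_apply (Polynomial k) B L, hab,
        ← IsScalarTower.algebraMap_apply (Polynomial k) B L]
    exact IsFractionRing.injective (Polynomial k) K ((algebraMap K L).injective h1)
  obtain ⟨x, hx⟩ : ∃ x : B, s • x ≠ x := by
    by_contra hcon
    push Not at hcon
    apply hs
    ext y
    obtain ⟨a, b, -, rfl⟩ := IsFractionRing.div_surjective (A := B) y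
    rw [map_div₀, ← hact, ← hact, hcon, hcon]
    rfl
  obtain ⟨v, a, ha, hga⟩ := exists_elt k s x hx
  refine ⟨algebraMap B L a, ?_, ?_⟩
  · intro h0
    have h1 : v.valuation L (algebraMap B L a) = exp (-1 : ℤ) := by
      rw [v.valuation_of_algebraMap, ha]
    rw [h0, map_zero] at h1
    exact (exp_ne_zero h1.symm).elim
  · rintro ⟨b, hb⟩
    have h1 := congrArg (v.valuation L) hb
    rw [← hact, map_mul, map_pow, v.valuation_of_algebraMap, v.valuation_of_algebraMap, ha, hga]
      at h1
    have hb0 : v.valuation L b ≠ 0 := by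
      intro h0
      rw [h0] at h1
      simp at h1
    rw [← exp_log hb0, ← exp_nsmul, ← exp_add, ← exp_zero, exp_inj] at h1
    simp only [nsmul_eq_mul, Nat.cast_ofNat] at h1
    omega

end field

end Pool.Agent.MP_3d3918.H97.Centre
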