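import Pool.Agent.Lib.MP_3d3918_nt.H97.Centre

/-!
# The conjugacy classes of the absolute Galois group of a field of rational functions are
uncountable
-/

set_option autoImplicit false
set_option linter.unusedSectionVars false

open Polynomial Topology

namespace Pool.Agent.MP_3d3918.H97.Centre

variable (k : Type) {K : Type} [Field k] [Field K] [CharZero K] [Algebra (Polynomial k) K]
  [IsFractionRing (Polynomial k) K]

include k

/-- An automorphism which commutes with all automorphisms over a finite Galois extension is trivial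
on it. -/
theorem fixes_of_commute (σ : Gal(AlgebraicClosure K/K))
    (L : IntermediateField K (AlgebraicClosure K)) [FiniteDimensional K L] [IsGalois K L]
    (h : ∀ τ : Gal(AlgebraicClosure K/K), (∀ x ∈ L, τ x = x) → σ * τ = τ * σ) (x : L) :
    σ x = x := by
  have gal : IsGalois K (AlgebraicClosure K) := { }
  by_contra hx
  have hσ : ∀ y : L, ((AlgEquiv.restrictNormalHom L σ y : L) : AlgebraicClosure K) = σ y :=
    fun y => AlgEquiv.restrictNormalHom_apply L σ y
  have hs : AlgEquiv.restrictNormalHom L σ ≠ 1 := by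
    intro h1
    apply hx
    rw [← hσ, h1]
    rfl
  obtain ⟨a, ha0, ha⟩ := exists_nonsquare (k := k) _ hs
  obtain ⟨α, hα⟩ := IsAlgClosed.exists_pow_nat_eq (a : AlgebraicClosure K) (n := 2) two_pos
  have hα0 : α ≠ 0 := by
    rintro rfl
    apply ha0
    apply Subtype.ext
    rw [← hα]
    simp
  have hb : σ α / α ∈ L := by
    rw [← InfiniteGalois.fixedField_fixingSubgroup L, IntermediateField.mem_fixedField_iff]
    intro τ hτ
    rw [IntermediateField.mem_fixingSubgroup_iff] at hτ
    have h1 := h τ hτ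
    have h2 : τ (σ α) = σ (τ α) := by
      have := congrArg (fun g : Gal(AlgebraicClosure K/K) => g α) h1
      exact this.symm
    have h3 : τ α ^ 2 = α ^ 2 := by
      rw [← map_pow, hα]
      exact hτ _ a.2
    rw [map_div₀, h2]
    rcases sq_eq_sq_iff_eq_or_eq_neg.1 h3 with h4 | h4
    · rw [h4]
    · rw [h4, map_neg, neg_div_neg_eq]
  apply ha
  refine ⟨⟨σ α / α, hb⟩, Subtype.ext ?_⟩
  rw [hσ]
  change σ a = (a : AlgebraicClosure K) * (σ α / α) ^ 2
  rw [← hα, map_pow, div_pow, mul_div_cancel₀ _ (pow_ne_zero 2 hα0)]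

theorem eq_one_of_commute (σ : Gal(AlgebraicClosure K/K))
    (L : IntermediateField K (AlgebraicClosure K)) [FiniteDimensional K L]
    (h : ∀ τ : Gal(AlgebraicClosure K/K), (∀ x ∈ L, τ x = x) → σ * τ = τ * σ) : σ = 1 := by
  ext x
  have nor : Normal K (AlgebraicClosure K) := IsAlgClosure.normal K (AlgebraicClosure K)
  have hint : IsIntegral K x := (Algebra.IsAlgebraic.isAlgebraic x).isIntegral
  have fin : FiniteDimensional K (IntermediateField.adjoin K {x}) :=
    IntermediateField.adjoin.finiteDimensional hint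
  let L₁ : IntermediateField K (AlgebraicClosure K) := L ⊔ IntermediateField.adjoin K {x}
  have fin1 : FiniteDimensional K L₁ := IntermediateField.finiteDimensional_sup _ _
  let M := IntermediateField.normalClosure K L₁ (AlgebraicClosure K)
  have finM : FiniteDimensional K M := inferInstance
  have norM : Normal K M := inferInstance
  have galM : IsGalois K M := { }
  have hle : L₁ ≤ M := IntermediateField.le_normalClosure L₁
  have hLM : L ≤ M := le_sup_left.trans hle
  have hxM : x ∈ M := hle ((le_sup_right : IntermediateField.adjoin K {x} ≤ L₁)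
    (IntermediateField.mem_adjoin_simple_self K x))
  exact fixes_of_commute k σ M (fun τ hτ => h τ fun y hy => hτ y (hLM hy)) ⟨x, hxM⟩

/-- The conjugacy class of a nontrivial automorphism is uncountable. -/
theorem uncountable_class (σ : Gal(AlgebraicClosure K/K)) (hσ : σ ≠ 1) :
    ¬ (Set.range fun τ : Gal(AlgebraicClosure K/K) => τ * σ * τ⁻¹).Countable := by
  intro hc
  have gal : IsGalois K (AlgebraicClosure K) := { }
  have := hc.to_subtype
  have hclosed : ∀ y : Set.range fun τ : Gal(AlgebraicClosure K/K) => τ * σ * τ⁻¹,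
      IsClosed {τ : Gal(AlgebraicClosure K/K) | τ * σ * τ⁻¹ = y.1} := by
    intro y
    have hcont : Continuous fun τ : Gal(AlgebraicClosure K/K) => τ * σ * τ⁻¹ := by
      fun_prop
    exact isClosed_singleton.preimage hcont
  obtain ⟨y, τ₀, hτ₀⟩ := nonempty_interior_of_iUnion_of_closed hclosed (by
    rw [Set.eq_univ_iff_forall]
    intro τ
    rw [Set.mem_iUnion]
    exact ⟨⟨_, τ, rfl⟩, rfl⟩)
  have h1 : (fun τ => τ₀ * τ) ⁻¹' (interior {τ : Gal(AlgebraicClosure K/K) | τ * σ * τ⁻¹ = y.1}) ∈
      𝓝 (1 : Gal(AlgebraicClosure K/K)) := by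
    refine IsOpen.mem_nhds (isOpen_interior.preimage (continuous_const_mul τ₀)) ?_
    rw [Set.mem_preimage, mul_one]
    exact hτ₀
  obtain ⟨L, hL, hsub⟩ := (krullTopology_mem_nhds_one_iff K (AlgebraicClosure K) _).1 h1
  apply hσ
  refine eq_one_of_commute k σ L fun τ hτ => ?_
  have h2 : τ ∈ L.fixingSubgroup := by
    rw [IntermediateField.mem_fixingSubgroup_iff]
    exact hτ
  have h3' : τ₀ * τ ∈ {τ : Gal(AlgebraicClosure K/K) | τ * σ * τ⁻¹ = y.1} :=
    interior_subset (hsub h2)
  have h4' : τ₀ ∈ {τ : Gal(AlgebraicClosure K/K) | τ * σ * τ⁻¹ = y.1} := interior_subset hτ₀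
  have h3 : τ₀ * τ * σ * (τ₀ * τ)⁻¹ = y.1 := h3'
  have h4 : τ₀ * σ * τ₀⁻¹ = y.1 := h4'
  have h5 : τ₀ * τ * σ * (τ₀ * τ)⁻¹ = τ₀ * σ * τ₀⁻¹ := h3.trans h4.symm
  have h6 : τ * σ * τ⁻¹ = σ := by
    have h7 : τ₀ * (τ * σ * τ⁻¹) * τ₀⁻¹ = τ₀ * σ * τ₀⁻¹ := by
      rw [← h5]
      group
    exact mul_left_cancel (mul_right_cancel h7)
  rw [mul_inv_eq_iff_eq_mul] at h6
  exact h6.symm

end Pool.Agent.MP_3d3918.H97.Centre
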