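import Pool.Agent.Lib.MP_3d3918_nt.H97.CountInert
import Pool.Agent.Lib.MP_3d3918_nt.Rings

/-!
# The rings of a Galois extension
-/

set_option autoImplicit false
set_option linter.unusedSectionVars false

open Polynomial

namespace Pool.Agent.MP_3d3918.H97

open Pool.Agent.MP_3d3918

section

variable {K K' : Type} [Field K] [Field K'] [Algebra K K'] {θ : K'}

theorem ringOf_eq (R : Subring K) : ringOf θ R = BR θ R := rfl

/-- The generator. -/
def gen (θ : K') (R : Subring K) : ringOf θ R := ⟨θ, theta_mem θ R⟩

/-- The action. -/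
@[instance_reducible]
def rAct {R : Subring K} (hR : Large θ R) : MulSemiringAction Gal(K'/K) (ringOf θ R) := bAct hR

theorem rAct_coe {R : Subring K} (hR : Large θ R) (σ : Gal(K'/K)) (b : ringOf θ R) :
    letI := rAct hR
    ((σ • b : ringOf θ R) : K') = σ b := rfl

theorem eq_of_theta (hθ : IntermediateField.adjoin K {θ} = ⊤) (g h : Gal(K'/K))
    (hgh : g θ = h θ) : g = h := by
  have h1 : (g : K' →ₐ[K] K') = h := by
    have h2 : ∀ x ∈ IntermediateField.adjoin K {θ}, g x = h x := by
      intro x hx
      have h3 : IntermediateField.adjoin K {θ} ≤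
          IntermediateField.fixedField (Subgroup.zpowers (h⁻¹ * g)) := by
        rw [IntermediateField.adjoin_le_iff]
        intro w hw
        rw [Set.mem_singleton_iff.1 hw]
        change θ ∈ IntermediateField.fixedField _
        rw [IntermediateField.mem_fixedField_iff]
        intro ρ hρ
        have h4 : h⁻¹ * g ∈ MulAction.stabilizer Gal(K'/K) θ := by
          change h⁻¹ (g θ) = θ
          rw [hgh]
          exact h.symm_apply_apply θ
        exact (Subgroup.zpowers_le.2 h4) hρ
      have h5 := h3 hx
      rw [IntermediateField.mem_fixedField_iff] at h5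
      have h6 := h5 _ (Subgroup.mem_zpowers _)
      have h7 : h (h⁻¹ (g x)) = g x := h.apply_symm_apply _
      rw [← h7]
      exact congrArg h h6
    ext x
    exact h2 x (by rw [hθ]; trivial)
  ext x
  exact congrArg (fun f => f x) h1

theorem etale_ring [FiniteDimensional K K'] [IsGalois K K'] {R : Subring K} (hR : Large θ R)
    (hθ : IntermediateField.adjoin K {θ} = ⊤) :
    letI := rAct hR
    Etale (toRing θ R) (gen θ R) Gal(K'/K) := by
  let act := rAct hR
  refine ⟨?_, ?_, ?_, ?_⟩
  · intro a b h
    exact Subtype.ext ((algebraMap K K').injective (congrArg Subtype.val h))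
  · intro b
    constructor
    · intro h
      have h1 : (b : K') ∈ Set.range (algebraMap K K') := by
        rw [IsGalois.mem_range_algebraMap_iff_fixed]
        intro g
        exact congrArg Subtype.val (h g)
      obtain ⟨c, hc⟩ := h1
      have h2 : algebraMap K K' c ∈ BR θ R := by
        rw [hc]
        exact b.2
      exact ⟨⟨c, mem_of_alg_mem θ hR.coeff h2⟩, Subtype.ext hc⟩
    · rintro ⟨r, rfl⟩ g
      apply Subtype.ext
      exact AlgEquiv.commutes g _
  · rw [eq_top_iff]
    rintro ⟨x, hx⟩ -
    have key : ∀ (x : K') (hx : x ∈ ringOf θ R), (⟨x, hx⟩ : ringOf θ R) ∈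
        Subring.closure (Set.range (toRing θ R) ∪ {gen θ R}) := by
      intro x hx
      induction hx using Subring.closure_induction with
      | mem x hx =>
        rcases hx with ⟨r, hr, rfl⟩ | hx
        · exact Subring.subset_closure (Or.inl ⟨⟨r, hr⟩, rfl⟩)
        · apply Subring.subset_closure
          right
          exact Subtype.ext (Set.mem_singleton_iff.1 hx)
      | zero => exact zero_mem _
      | one => exact one_mem _
      | add x y _ _ hx hy => exact add_mem hx hy
      | neg x _ hx => exact neg_mem hx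
      | mul x y _ _ hx hy => exact mul_mem hx hy
    exact key x hx
  · intro g h hne
    have h0 : g θ - h θ ≠ 0 := by
      intro h0
      exact hne (eq_of_theta hθ g h (sub_eq_zero.1 h0))
    refine IsUnit.of_mul_eq_one ⟨_, hR.unit g h⟩ ?_
    apply Subtype.ext
    exact mul_inv_cancel₀ h0

variable {L : Type} [Field L] [Algebra K L] (f : L →ₐ[K] K')

/-- The inclusion of the ring of the elements of `L`. -/
def fromAR (θ : K') (R : Subring K) (f : L →ₐ[K] K') : AR θ R f →+* ringOf θ R :=
  ((f : L →+* K').comp (AR θ R f).subtype).codRestrict (ringOf θ R) (fun a => a.2)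

theorem mid_AR {R : Subring K} (hR : Large θ R) (C : Subgroup Gal(K'/K))
    (hf : ∀ x : K', (∀ σ ∈ C, σ x = x) ↔ x ∈ Set.range f) :
    letI := rAct hR
    Mid (toRing θ R) C (fromAR θ R f) (incl θ R f) := by
  let act := rAct hR
  refine ⟨?_, ?_, ?_⟩
  · intro a b h
    exact Subtype.ext (f.injective (congrArg Subtype.val h))
  · intro b
    constructor
    · intro h
      obtain ⟨x, hx⟩ := (hf b.1).1 fun σ hσ => congrArg Subtype.val (h σ hσ)
      refine ⟨⟨x, ?_⟩, Subtype.ext hx⟩
      rw [mem_AR, hx]
      exact b.2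
    · rintro ⟨a, rfl⟩ g hg
      apply Subtype.ext
      exact (hf _).2 ⟨a.1, rfl⟩ g hg
  · ext r
    exact f.commutes _

end

section

variable {K K' L : Type} [Field K] [Field K'] [Field L] [Algebra K K'] [Algebra K L] [Algebra L K']
  [IsScalarTower K L K'] {θ : K'}

/-- The ring `R[θ]` does not change when `R` is replaced by the ring of the elements of `L`. -/
theorem ringOf_AR (R : Subring K) :
    ringOf θ (AR θ R (IsScalarTower.toAlgHom K L K')) = ringOf θ R := by
  apply le_antisymm
  · unfold ringOf
    rw [Subring.closure_le]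
    rintro _ (⟨a, ha, rfl⟩ | hx)
    · exact ha
    · rw [Set.mem_singleton_iff.1 hx]
      exact theta_mem θ R
  · unfold ringOf
    rw [Subring.closure_le]
    rintro _ (⟨r, hr, rfl⟩ | hx)
    · refine Subring.subset_closure (Or.inl ⟨algebraMap K L r, ?_, ?_⟩)
      · change IsScalarTower.toAlgHom K L K' (algebraMap K L r) ∈ BR θ R
        rw [AlgHom.commutes]
        exact alg_mem θ hr
      · exact (IsScalarTower.algebraMap_apply K L K' r).symm
    · exact Subring.subset_closure (Or.inr hx)

theorem inert_iff_abs {p : ℕ} (R : Subring K)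
    (z : AR θ R (IsScalarTower.toAlgHom K L K') →+* ZMod p) :
    Inert θ (AR θ R (IsScalarTower.toAlgHom K L K')) z ↔
      InertAbs (fromAR θ R (IsScalarTower.toAlgHom K L K')) z (Module.finrank L K') := by
  have e := ringOf_AR (K := K) (L := L) (θ := θ) R
  constructor
  · rintro ⟨k, hk, ι, φ, h1, h2, h3⟩
    refine ⟨k, hk, ι, φ.comp (Subring.inclusion e.ge), ?_, h2, fun r => ?_⟩
    · intro x
      obtain ⟨b, rfl⟩ := h1 x
      exact ⟨⟨b.1, by rw [← e]; exact b.2⟩, rfl⟩
    · rw [← h3]
      rfl
  · rintro ⟨k, hk, ι, φ, h1, h2, h3⟩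
    refine ⟨k, hk, ι, φ.comp (Subring.inclusion e.le), ?_, h2, fun r => ?_⟩
    · intro x
      obtain ⟨b, rfl⟩ := h1 x
      exact ⟨⟨b.1, by rw [e]; exact b.2⟩, rfl⟩
    · rw [← h3]
      rfl

end

end Pool.Agent.MP_3d3918.H97
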