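import Pool.Agent.Lib.MP_3d3918_nt.H97.Pair

/-!
# Conjugate automorphisms
-/

set_option autoImplicit false
set_option linter.unusedSectionVars false
set_option linter.style.haveILetI false

open Filter Topology TensorProduct WeierstrassCurve

namespace Pool.Agent.MP_3d3918.H97

open Pool.Agent.MP_3d3918

section

variable {K : Type} [Field K] [CharZero K]

/-- The formula for the inert points only depends on the conjugacy class. -/
theorem inertPair_conj (U : Set ℂ) (E : WeierstrassCurve K)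
    (N : IntermediateField K (AlgebraicClosure K)) [FiniteDimensional K N] [IsGalois K N]
    (σ τ : Gal(AlgebraicClosure K/K))
    (h : InertPair U E (fixedIn N σ) N (fixedIn_le N σ)) :
    InertPair U E (fixedIn N (τ * σ * τ⁻¹)) N (fixedIn_le N (τ * σ * τ⁻¹)) := by
  have norN : Normal K N := inferInstance
  have hτ : ∀ (τ : Gal(AlgebraicClosure K/K)) (x : N),
      ((AlgEquiv.restrictNormalHom N τ x : N) : AlgebraicClosure K) = τ x := fun τ x =>
    AlgEquiv.restrictNormalHom_apply N τ x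
  have hN : ∀ (τ : Gal(AlgebraicClosure K/K)) (x : AlgebraicClosure K), x ∈ N → τ x ∈ N := by
    intro τ x hx
    rw [← hτ τ ⟨x, hx⟩]
    exact SetLike.coe_mem _
  have hinv : ∀ (τ : Gal(AlgebraicClosure K/K)) (x : AlgebraicClosure K), τ⁻¹ (τ x) = x :=
    fun τ x => τ.symm_apply_apply x
  have hinv' : ∀ (τ : Gal(AlgebraicClosure K/K)) (x : AlgebraicClosure K), τ (τ⁻¹ x) = x :=
    fun τ x => τ.apply_symm_apply x
  let e : fixedIn N σ ≃+* fixedIn N (τ * σ * τ⁻¹) :=
    { toFun := fun x => ⟨τ x, (mem_fixedIn N _ _).2 ⟨hN τ _ (fixedIn_le N σ x.2), by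
        change τ (σ (τ⁻¹ (τ x))) = τ x
        rw [hinv, ((mem_fixedIn N σ x.1).1 x.2).2]⟩⟩
      invFun := fun x => ⟨τ⁻¹ x, (mem_fixedIn N _ _).2 ⟨hN τ⁻¹ _ (fixedIn_le N _ x.2), by
        have h1 : τ (σ (τ⁻¹ x.1)) = x.1 := ((mem_fixedIn N (τ * σ * τ⁻¹) x.1).1 x.2).2
        conv_rhs => rw [← h1]
        exact (hinv τ _).symm⟩⟩
      left_inv := fun x => Subtype.ext (hinv τ _)
      right_inv := fun x => Subtype.ext (hinv' τ _)
      map_mul' := fun x y => Subtype.ext (map_mul τ x.1 y.1)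
      map_add' := fun x y => Subtype.ext (map_add τ x.1 y.1) }
  letI a1 := incAlg (fixedIn_le N σ)
  letI a2 := incAlg (fixedIn_le N (τ * σ * τ⁻¹))
  have h0 : InertNagao N U (E.map (algebraMap K (fixedIn N σ))) := h
  change InertNagao N U (E.map (algebraMap K (fixedIn N (τ * σ * τ⁻¹))))
  have h1 := inertNagao_equiv e (AlgEquiv.restrictNormalHom N τ).toRingEquiv
    (fun x => Subtype.ext (hτ τ _)) U _ h0
  rw [WeierstrassCurve.map_map] at h1
  have h2 : (e : fixedIn N σ →+* fixedIn N (τ * σ * τ⁻¹)).comp (algebraMap K (fixedIn N σ)) =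
      algebraMap K (fixedIn N (τ * σ * τ⁻¹)) := by
    ext x
    exact τ.commutes x
  rw [h2] at h1
  exact h1

end

end Pool.Agent.MP_3d3918.H97
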