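import Pool.Agent.Lib.MP_3d3918_nt.H97.Inert

/-!
# The number of the inert points above a point
-/

set_option autoImplicit false
set_option linter.unusedSectionVars false

open Polynomial

namespace Pool.Agent.MP_3d3918.H97

open Pool.Agent.MP_3d3918

section

variable {R B G k : Type} [CommRing R] [CommRing B] [Group G] [Finite G] [MulSemiringAction G B]
  [Field k] [IsAlgClosed k] {p : ℕ} [Fact p.Prime]
  {i : R →+* B} {θ : B} {ι : ZMod p →+* k} {y : R →+* ZMod p}

/-- The intermediate ring. -/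
structure Mid {A : Type} [CommRing A] (i : R →+* B) (C : Subgroup G) (j : A →+* B)
    (i' : R →+* A) : Prop where
  inj : Function.Injective j
  inv : ∀ b, (∀ g ∈ C, g • b = b) ↔ b ∈ j.range
  comp : j.comp i' = i

theorem Mid.etale {A : Type} [CommRing A] {C : Subgroup G} {j : A →+* B} {i' : R →+* A}
    (hm : Mid i C j i') (h : Etale i θ G) : Etale j θ C := by
  refine ⟨hm.inj, fun b => ?_, ?_, ?_⟩
  · rw [← hm.inv]
    exact ⟨fun h g hg => h ⟨g, hg⟩, fun h g => h g.1 g.2⟩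
  · rw [eq_top_iff, ← h.gen]
    apply Subring.closure_mono
    apply Set.union_subset_union_left
    rintro _ ⟨r, rfl⟩
    exact ⟨i' r, congrArg (fun f => f r) hm.comp⟩
  · intro g g' hne
    exact h.unit g.1 g'.1 fun h' => hne (Subtype.ext h')

variable {A : Type} [CommRing A] {C : Subgroup G} {j : A →+* B} {i' : R →+* A}

theorem Mid.exists_elt (hm : Mid i C j i') (h : Etale i θ G) {φ : B →+* k} {σ : G}
    (hf : IsFrob i ι y φ σ) (z : A →+* ZMod p) (hz : z.comp i' = y) :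
    ∃ x : G, ∀ a, ι (z a) = φ (x • j a) := by
  let _ : Algebra A B := j.toAlgebra
  have hinv : Algebra.IsInvariant A B C := ⟨fun b hb => (hm.inv b).1 (fun g hg => hb ⟨g, hg⟩)⟩
  have hsm : SMulCommClass C A B := ⟨fun g r b => by
    rw [Algebra.smul_def, Algebra.smul_def, smul_mul']
    congr 1
    exact (hm.inv _).2 ⟨r, rfl⟩ g.1 g.2⟩
  have hint : Algebra.IsIntegral A B := Algebra.IsInvariant.isIntegral A B C
  obtain ⟨ψ, hψ⟩ := exists_extension hm.inj (ι.comp z)
  have hψ' : ∀ a, ψ (j a) = ι (z a) := fun a => congrArg (fun f => f a) hψ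
  obtain ⟨x, hx⟩ := h.exists_smul (ι := ι) (y := y) (φ := φ) (φ' := ψ) hf.above (by
    intro r
    have h1 : i r = j (i' r) := (congrArg (fun f => f r) hm.comp).symm
    rw [h1, hψ', ← hz]
    rfl)
  exact ⟨x, fun a => by rw [← hψ', hx]⟩

theorem Mid.mem (hm : Mid i C j i') (h : Etale i θ G) {φ : B →+* k} {σ : G}
    (hf : IsFrob i ι y φ σ) {z : A →+* ZMod p} {x : G} (hx : ∀ a, ι (z a) = φ (x • j a)) :
    x⁻¹ * σ * x ∈ C := by
  set ψ := φ.comp (MulSemiringAction.toRingHom G B x) with hψ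
  have h1 : IsFrob i ι y ψ (x⁻¹ * σ * x) := hf.conj x (fun r => h.smul_i x r)
  have hψj : ∀ a, ψ (j a) = ι (z a) := fun a => (hx a).symm
  obtain ⟨c, hc, hc'⟩ := exists_smul_of_agree C ψ
    (ψ.comp (MulSemiringAction.toRingHom G B (x⁻¹ * σ * x))) (by
      intro b hb
      obtain ⟨a, rfl⟩ := (hm.inv b).1 hb
      change ψ ((x⁻¹ * σ * x) • j a) = ψ (j a)
      rw [h1.frob, hψj, comp_pow]) θ
  have h2 : x⁻¹ * σ * x = c := h.smul_injective ψ hc'
  rw [h2]
  exact hc

theorem Mid.exists_point (hm : Mid i C j i') (h : Etale i θ G) {φ : B →+* k} {σ : G}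
    (hf : IsFrob i ι y φ σ) {x : G} (hx : x⁻¹ * σ * x ∈ C) :
    ∃ z : A →+* ZMod p, z.comp i' = y ∧ ∀ a, ι (z a) = φ (x • j a) := by
  have hchar : CharP k p := charP_of_injective_ringHom ι.injective p
  set ψ := φ.comp (MulSemiringAction.toRingHom G B x) with hψ
  have h1 : IsFrob i ι y ψ (x⁻¹ * σ * x) := hf.conj x (fun r => h.smul_i x r)
  obtain ⟨z, hz⟩ := exists_factor p ι (ψ.comp j) (by
    intro a
    change ψ (j a) ^ p = ψ (j a)
    rw [← h1.frob, (hm.inv (j a)).2 ⟨a, rfl⟩ _ hx])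
  have hz' : ∀ a, ι (z a) = ψ (j a) := fun a => congrArg (fun f => f a) hz
  refine ⟨z, ?_, hz'⟩
  ext r
  apply ι.injective
  have h3 : j (i' r) = i r := congrArg (fun f => f r) hm.comp
  rw [RingHom.comp_apply, hz', h3, h1.above]

theorem Mid.coset (hm : Mid i C j i') (h : Etale i θ G) {φ : B →+* k} (g g' : G) :
    (∀ a, φ (g • j a) = φ (g' • j a)) ↔ g⁻¹ * g' ∈ C := by
  constructor
  · intro h1
    obtain ⟨c, hc, hc'⟩ := exists_smul_of_agree C
      (φ.comp (MulSemiringAction.toRingHom G B g)) (φ.comp (MulSemiringAction.toRingHom G B g')) (by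
        intro b hb
        obtain ⟨a, rfl⟩ := (hm.inv b).1 hb
        exact (h1 a).symm) θ
    have h2 : φ (g' • θ) = φ ((g * c) • θ) := by
      rw [mul_smul]
      exact hc'
    rw [h.smul_injective φ h2, inv_mul_cancel_left]
    exact hc
  · intro h1 a
    have h2 : g' = g * (g⁻¹ * g') := by group
    rw [h2, mul_smul, (hm.inv (j a)).2 ⟨a, rfl⟩ _ h1]

theorem zpowers_eq_iff {C : Subgroup G} {g : G} (hg : g ∈ C) :
    Subgroup.zpowers g = C ↔ orderOf g = Nat.card C := by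
  rw [← Nat.card_zpowers]
  constructor
  · intro h
    rw [h]
  · intro h
    exact Subgroup.eq_of_le_of_card_ge (Subgroup.zpowers_le.2 hg) h.ge

theorem Mid.inert_iff (hm : Mid i C j i') (h : Etale i θ G) {φ : B →+* k} {σ : G}
    (hf : IsFrob i ι y φ σ) {z : A →+* ZMod p} {x : G} (hx : ∀ a, ι (z a) = φ (x • j a)) :
    InertAbs j z (Nat.card C) ↔ Subgroup.zpowers (x⁻¹ * σ * x) = C := by
  have hmem := hm.mem h hf hx
  have h1 : IsFrob i ι y (φ.comp (MulSemiringAction.toRingHom G B x)) (x⁻¹ * σ * x) :=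
    hf.conj x (fun r => h.smul_i x r)
  have h2 : IsFrob j ι z (φ.comp (MulSemiringAction.toRingHom G B x))
      (⟨x⁻¹ * σ * x, hmem⟩ : C) := ⟨fun a => (hx a).symm, h1.frob⟩
  rw [(hm.etale h).inert_iff h2, zpowers_eq_iff hmem, Subgroup.orderOf_mk]

/-- The number of the inert points above a point. -/
theorem Mid.count_inert (hm : Mid i C j i') (h : Etale i θ G) {φ : B →+* k} {σ : G}
    (hf : IsFrob i ι y φ σ) :
    Nat.card {z : A →+* ZMod p // z.comp i' = y ∧ InertAbs j z (Nat.card C)} * Nat.card C =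
      Nat.card {x : G // Subgroup.zpowers (x⁻¹ * σ * x) = C} := by
  classical
  choose c hc using fun z : {z : A →+* ZMod p // z.comp i' = y ∧ InertAbs j z (Nat.card C)} =>
    hm.exists_elt h hf z.1 z.2.1
  rw [← Nat.card_prod]
  have hconj : ∀ (x : G) (d : C), Subgroup.zpowers (x⁻¹ * σ * x) = C →
      Subgroup.zpowers ((x * d)⁻¹ * σ * (x * d)) = C := by
    intro x d hx
    have h1 : (x * d)⁻¹ * σ * (x * d) = (d : G)⁻¹ * (x⁻¹ * σ * x) * d := by group
    have h2 : x⁻¹ * σ * x ∈ C := by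
      rw [← hx]
      exact Subgroup.mem_zpowers _
    have h3 : (d : G)⁻¹ * (x⁻¹ * σ * x) * d ∈ C := C.mul_mem (C.mul_mem (C.inv_mem d.2) h2) d.2
    rw [h1, zpowers_eq_iff h3]
    rw [zpowers_eq_iff h2] at hx
    rw [← hx]
    exact SemiconjBy.orderOf_eq (d : G) (by
      change (d : G) * ((d : G)⁻¹ * (x⁻¹ * σ * x) * d) = (x⁻¹ * σ * x) * d
      group)
  refine Nat.card_congr (Equiv.ofBijective (fun q => ⟨c q.1 * q.2, hconj _ _
    ((hm.inert_iff h hf (hc q.1)).1 q.1.2.2)⟩) ⟨?_, ?_⟩)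
  · rintro ⟨z, d⟩ ⟨z', d'⟩ hq
    have hq' : c z * d = c z' * d' := congrArg Subtype.val hq
    have h1 : (c z)⁻¹ * c z' ∈ C := by
      have : (c z)⁻¹ * c z' = d * (d' : G)⁻¹ := by
        rw [inv_mul_eq_iff_eq_mul, ← mul_assoc, hq', mul_inv_cancel_right]
      rw [this]
      exact C.mul_mem d.2 (C.inv_mem d'.2)
    have h2 := (hm.coset h (φ := φ) _ _).2 h1
    have h3 : z = z' := by
      apply Subtype.ext
      ext a
      apply ι.injective
      rw [hc z, hc z', h2]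
    subst h3
    have h4 : (d : G) = d' := mul_left_cancel hq'
    rw [Subtype.ext h4]
  · rintro ⟨x, hx⟩
    have hmem : x⁻¹ * σ * x ∈ C := by
      have h1 := Subgroup.mem_zpowers (x⁻¹ * σ * x)
      rwa [hx] at h1
    obtain ⟨z, hz, hz'⟩ := hm.exists_point h hf hmem
    have hin : InertAbs j z (Nat.card C) := (hm.inert_iff h hf hz').2 hx
    have h1 : (c ⟨z, hz, hin⟩)⁻¹ * x ∈ C := by
      apply (hm.coset h (φ := φ) _ _).1
      intro a
      rw [← hc, ← hz']
    refine ⟨⟨⟨z, hz, hin⟩, ⟨_, h1⟩⟩, ?_⟩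
    apply Subtype.ext
    change c ⟨z, hz, hin⟩ * ((c ⟨z, hz, hin⟩)⁻¹ * x) = x
    rw [mul_inv_cancel_left]

/-- The number of the points above a point. -/
theorem Mid.count (hm : Mid i C j i') (h : Etale i θ G) {φ : B →+* k} {σ : G}
    (hf : IsFrob i ι y φ σ) :
    Nat.card {z : A →+* ZMod p // z.comp i' = y} * Nat.card C =
      Nat.card {x : G // x⁻¹ * σ * x ∈ C} := by
  classical
  choose c hc using fun z : {z : A →+* ZMod p // z.comp i' = y} =>
    hm.exists_elt h hf z.1 z.2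
  rw [← Nat.card_prod]
  refine Nat.card_congr (Equiv.ofBijective (fun q => ⟨c q.1 * q.2, ?_⟩) ⟨?_, ?_⟩)
  · have h1 : (c q.1 * q.2)⁻¹ * σ * (c q.1 * q.2) =
        (q.2 : G)⁻¹ * ((c q.1)⁻¹ * σ * (c q.1)) * q.2 := by group
    rw [h1]
    exact C.mul_mem (C.mul_mem (C.inv_mem q.2.2) (hm.mem h hf (hc q.1))) q.2.2
  · rintro ⟨z, d⟩ ⟨z', d'⟩ hq
    have hq' : c z * d = c z' * d' := congrArg Subtype.val hq
    have h1 : (c z)⁻¹ * c z' ∈ C := by
      have : (c z)⁻¹ * c z' = d * (d' : G)⁻¹ := by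
        rw [inv_mul_eq_iff_eq_mul, ← mul_assoc, hq', mul_inv_cancel_right]
      rw [this]
      exact C.mul_mem d.2 (C.inv_mem d'.2)
    have h2 := (hm.coset h (φ := φ) _ _).2 h1
    have h3 : z = z' := by
      apply Subtype.ext
      ext a
      apply ι.injective
      rw [hc z, hc z', h2]
    subst h3
    have h4 : (d : G) = d' := mul_left_cancel hq'
    rw [Subtype.ext h4]
  · rintro ⟨x, hx⟩
    obtain ⟨z, hz, hz'⟩ := hm.exists_point h hf hx
    have h1 : (c ⟨z, hz⟩)⁻¹ * x ∈ C := by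
      apply (hm.coset h (φ := φ) _ _).1
      intro a
      rw [← hc, ← hz']
    refine ⟨⟨⟨z, hz⟩, ⟨_, h1⟩⟩, ?_⟩
    apply Subtype.ext
    change c ⟨z, hz⟩ * ((c ⟨z, hz⟩)⁻¹ * x) = x
    rw [mul_inv_cancel_left]

end

end Pool.Agent.MP_3d3918.H97
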