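import Pool.Agent.Lib.MP_3d3918_nt.Defs
import Pool.Agent.Lib.MP_3d3918_nt.Defs1

/-!
# MP_3d3918_nt: Nagao's formula for the inert points

`N / F` is a finite Galois extension, `R` a finitely generated subring of `F` and `N = F(θ)`.
-/

set_option autoImplicit false

open Filter Topology TensorProduct WeierstrassCurve WeierstrassCurve.Affine

namespace Pool.Agent.MP_3d3918.H97

open Pool.Agent.MP_3d3918

/-- `y` is a point of `Spec R` with values in the field with `p` elements: there is a point of
`Spec B` above `y` whose residue field has `p ^ m` elements. -/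
def InertAbs {R B : Type} [CommRing R] [CommRing B] {p : ℕ} (i : R →+* B) (y : R →+* ZMod p)
    (m : ℕ) : Prop :=
  ∃ (k : Type) (_ : Field k) (ι : ZMod p →+* k) (φ : B →+* k),
    Function.Surjective φ ∧ Nat.card k = p ^ m ∧ ∀ r, φ (i r) = ι (y r)

section

variable {F N : Type} [Field F] [Field N] [Algebra F N]

/-- The subring `R[θ]` of `N` generated by `R` and `θ`. -/
def ringOf (θ : N) (R : Subring F) : Subring N :=
  Subring.closure (algebraMap F N '' (R : Set F) ∪ {θ})

/-- The inclusion of `R` in `R[θ]`. -/
def toRing (θ : N) (R : Subring F) : R →+* ringOf θ R :=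
  ((algebraMap F N).comp R.subtype).codRestrict (ringOf θ R)
    (fun r => Subring.subset_closure (Or.inl ⟨r, r.2, rfl⟩))

/-- The point `y` of `Spec R` is inert in `N`: the residue field of a point of `Spec R[θ]` above it
has `p ^ [N : F]` elements. -/
def Inert (θ : N) {p : ℕ} (R : Subring F) (y : R →+* ZMod p) : Prop :=
  InertAbs (toRing θ R) y (Module.finrank F N)

/-- The sum of the traces of Frobenius of the fibres over the points of `Spec R` with values in the
field with `p` elements which are inert in `N`. -/
noncomputable def inertSum (θ : N) (p : ℕ) (R : Subring F) (W : WeierstrassCurve R) : ℤ :=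
  ∑ᶠ y : {y : R →+* ZMod p // Inert θ R y}, trace p (W.map y.1)

/-- The term at the prime `p` of the series of the inert points: `p ^ (-dim F)` times the sum of the
traces, times `log p`, times `p ^ (-s)`. -/
noncomputable def inertTerm [CharZero F] (θ : N) (R : Subring F) (W : WeierstrassCurve R) (s : ℂ)
    (p : Nat.Primes) : ℂ :=
  (inertSum θ p R W : ℂ) / ((p : ℕ) : ℂ) ^ (dim F) * (Real.log (p : ℕ) : ℂ) *
    ((p : ℕ) : ℂ) ^ (-s)

variable (N)

open Classical in
/-- The trace of the automorphism `g` of `N` over `F` on the rational vector space spanned by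
`E(N)`. -/
noncomputable def pointTrace (E : WeierstrassCurve F) (g : Gal(N/F)) : ℚ :=
  LinearMap.trace ℚ (ℚ ⊗[ℤ] (E.baseChange N).toAffine.Point)
    (LinearMap.baseChange ℚ
      (Point.map (W' := E) (F := N) (K := N) (g : N →ₐ[F] N)).toIntLinearMap)

/-- The sum of the traces of the generators of `Gal(N / F)` on `E(N)`, divided by `[N : F]`. -/
noncomputable def meanTrace (E : WeierstrassCurve F) : ℚ :=
  (∑ᶠ g : {g : Gal(N/F) // Subgroup.zpowers g = ⊤}, pointTrace N E g.1) / Nat.card Gal(N/F)

/-- Nagao's formula for the inert points of `N / F`, continued to `U`: the group `E(N)` has finite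
rank, and for all sufficiently large finitely generated subrings `R` of `F` the series of the sums
over the inert points has a meromorphic continuation to `U` with residue at `1` minus the sum of the
traces of the generators of `Gal(N / F)` on `E(N)`, divided by `[N : F]`. -/
def InertNagao [CharZero F] (U : Set ℂ) (E : WeierstrassCurve F) : Prop :=
  (∃ r : ℕ, mwRank (E.map (algebraMap F N)) = r) ∧
    ∀ θ : N, IntermediateField.adjoin F {θ} = ⊤ →
      ∃ R₀ : Subring F, FG R₀ ∧ ∀ R : Subring F, FG R → R₀ ≤ R →
        ∃ W : WeierstrassCurve R, W.map R.subtype = E ∧ IsUnit W.Δ ∧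
          Good U (inertTerm θ R W) (meanTrace N E)

end

section

variable {K : Type} [Field K] [CharZero K]

/-- The formula for `E` and the inert points of `N / F`, where `F` and `N` are extensions of `K`
inside the algebraic closure. -/
def InertPair (U : Set ℂ) (E : WeierstrassCurve K)
    (F N : IntermediateField K (AlgebraicClosure K)) (h : F ≤ N) : Prop :=
  letI : Algebra F N := (IntermediateField.inclusion h).toRingHom.toAlgebra
  InertNagao N U (E.map (algebraMap K F))

/-- The elements of `N` fixed by `σ`. -/
noncomputable def fixedIn (N : IntermediateField K (AlgebraicClosure K)) (σ : Gal(AlgebraicClosure K/K)) :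
    IntermediateField K (AlgebraicClosure K) :=
  N ⊓ IntermediateField.fixedField (Subgroup.zpowers σ)

omit [CharZero K] in
theorem fixedIn_le (N : IntermediateField K (AlgebraicClosure K))
    (σ : Gal(AlgebraicClosure K/K)) : fixedIn N σ ≤ N := inf_le_left

end

end Pool.Agent.MP_3d3918.H97
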