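import Pool.Agent.Lib.MP_3d3918_nt.H97.Triv
import Pool.Agent.Lib.MP_3d3918_nt.Invariance

/-!
# The formula for isomorphic extensions
-/

set_option autoImplicit false
set_option linter.unusedSectionVars false

open Filter Topology TensorProduct WeierstrassCurve

namespace Pool.Agent.MP_3d3918.H97

open Pool.Agent.MP_3d3918

theorem InertAbs.of_map {R B R' B' : Type} [CommRing R] [CommRing B] [CommRing R'] [CommRing B']
    {p : ℕ} {i : R →+* B} {i' : R' →+* B'} (a : R' →+* R) (b : B' →+* B)
    (hb : Function.Surjective b) (hc : ∀ r, b (i' r) = i (a r)) {y : R →+* ZMod p} {m : ℕ}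
    (h : InertAbs i y m) : InertAbs i' (y.comp a) m := by
  obtain ⟨k, hk, ι, φ, h1, h2, h3⟩ := h
  refine ⟨k, hk, ι, φ.comp b, h1.comp hb, h2, fun r => ?_⟩
  rw [RingHom.comp_apply, hc, h3]
  rfl

section

variable {F N F₁ N₁ : Type} [Field F] [Field N] [Field F₁] [Field N₁] [Algebra F N]
  [Algebra F₁ N₁] (e : F ≃+* F₁) (e' : N ≃+* N₁)
  (h : ∀ x, e' (algebraMap F N x) = algebraMap F₁ N₁ (e x))

include h

theorem adjoin_equiv {θ : N} (hθ : IntermediateField.adjoin F₁ {e' θ} = ⊤) :
    IntermediateField.adjoin F {θ} = ⊤ := by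
  rw [eq_top_iff]
  intro x _
  let S : Subfield N₁ :=
    (IntermediateField.adjoin F {θ}).toSubfield.map (e' : N →+* N₁)
  have hS : ∀ a : F₁, algebraMap F₁ N₁ a ∈ S := by
    intro a
    refine ⟨algebraMap F N (e.symm a), IntermediateField.algebraMap_mem _ _, ?_⟩
    change e' (algebraMap F N (e.symm a)) = _
    rw [h, e.apply_symm_apply]
  have h1 : IntermediateField.adjoin F₁ {e' θ} ≤ S.toIntermediateField hS := by
    rw [IntermediateField.adjoin_le_iff]
    intro w hw
    rw [Set.mem_singleton_iff.1 hw]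
    exact ⟨θ, IntermediateField.mem_adjoin_simple_self F θ, rfl⟩
  rw [hθ] at h1
  obtain ⟨z, hz, hzx⟩ := h1 (IntermediateField.mem_top (x := e' x))
  have h2 : z = x := e'.injective hzx
  rw [← h2]
  exact hz

/-- The isomorphism of the rings. -/
def resEquiv (R : Subring F₁) : (R.comap (e : F →+* F₁)) ≃+* R :=
  { toFun := fun x => ⟨e x.1, x.2⟩
    invFun := fun x => ⟨e.symm x.1, by
      change e (e.symm x.1) ∈ R
      rw [e.apply_symm_apply]
      exact x.2⟩
    left_inv := fun x => Subtype.ext (e.symm_apply_apply x.1)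
    right_inv := fun x => Subtype.ext (e.apply_symm_apply x.1)
    map_mul' := fun x y => Subtype.ext (map_mul e x.1 y.1)
    map_add' := fun x y => Subtype.ext (map_add e x.1 y.1) }

theorem ringOf_equiv (R : Subring F₁) (θ : N) (x : N) :
    x ∈ ringOf θ (R.comap (e : F →+* F₁)) ↔ e' x ∈ ringOf (e' θ) R := by
  have h1 : ringOf (e' θ) R = (ringOf θ (R.comap (e : F →+* F₁))).map (e' : N →+* N₁) := by
    unfold ringOf
    rw [RingHom.map_closure, Set.image_union, Set.image_singleton]
    congr 2
    ext z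
    constructor
    · rintro ⟨r, hr, rfl⟩
      refine ⟨algebraMap F N (e.symm r), ⟨e.symm r, ?_, rfl⟩, ?_⟩
      · change e (e.symm r) ∈ R
        rw [e.apply_symm_apply]
        exact hr
      · change e' (algebraMap F N (e.symm r)) = _
        rw [h, e.apply_symm_apply]
    · rintro ⟨_, ⟨r, hr, rfl⟩, rfl⟩
      exact ⟨e r, hr, (h r).symm⟩
  rw [h1]
  constructor
  · intro hx
    exact ⟨x, hx, rfl⟩
  · rintro ⟨z, hz, hzx⟩
    have h2 : z = x := e'.injective hzx
    rw [← h2]
    exact hz

theorem inert_equiv {p : ℕ} (R : Subring F₁) (θ : N) (y : R →+* ZMod p) :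
    Inert (e' θ) R y ↔ Inert θ (R.comap (e : F →+* F₁))
      (y.comp (resEquiv e R : R.comap (e : F →+* F₁) →+* R)) := by
  have hfin : Module.finrank F₁ N₁ = Module.finrank F N := by
    symm
    exact Algebra.finrank_eq_of_equiv_equiv e e' (by
      ext x
      exact (h x).symm)
  unfold Inert
  rw [hfin]
  let j : ringOf θ (R.comap (e : F →+* F₁)) →+* ringOf (e' θ) R :=
    ((e' : N →+* N₁).comp (ringOf θ (R.comap (e : F →+* F₁))).subtype).codRestrict _
      (fun x => (ringOf_equiv e e' h R θ x.1).1 x.2)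
  let j' : ringOf (e' θ) R →+* ringOf θ (R.comap (e : F →+* F₁)) :=
    ((e'.symm : N₁ →+* N).comp (ringOf (e' θ) R).subtype).codRestrict _
      (fun x => by
        rw [ringOf_equiv e e' h]
        change e' (e'.symm x.1) ∈ _
        rw [e'.apply_symm_apply]
        exact x.2)
  have hjj' : ∀ x, j (j' x) = x := fun x => Subtype.ext (e'.apply_symm_apply x.1)
  have hj'j : ∀ x, j' (j x) = x := fun x => Subtype.ext (e'.symm_apply_apply x.1)
  have hj : ∀ r, j (toRing θ _ r) = toRing (e' θ) R (resEquiv e R r) := fun r =>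
    Subtype.ext (h r.1)
  constructor
  · intro hy
    exact hy.of_map (i' := toRing θ _) (resEquiv e R : _ →+* R) j
      (fun x => ⟨j' x, hjj' x⟩) hj
  · intro hy
    have h1 := hy.of_map (i' := toRing (e' θ) R) ((resEquiv e R).symm : R →+* _) j'
      (fun x => ⟨j x, hj'j x⟩) (fun r => by
        have h2 := hj ((resEquiv e R).symm r)
        rw [RingEquiv.apply_symm_apply] at h2
        rw [← h2, hj'j]
        rfl)
    have h3 : (y.comp (resEquiv e R : R.comap (e : F →+* F₁) →+* R)).comp
        ((resEquiv e R).symm : R →+* _) = y := by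
      ext x
      exact congrArg y ((resEquiv e R).apply_symm_apply x)
    rwa [h3] at h1

theorem inertSum_equiv (p : ℕ) (R : Subring F₁) (θ : N)
    (W : WeierstrassCurve (R.comap (e : F →+* F₁))) :
    inertSum (e' θ) p R (W.map (resEquiv e R : _ →+* R)) =
      inertSum θ p (R.comap (e : F →+* F₁)) W := by
  unfold inertSum
  let g : (R →+* ZMod p) ≃ (R.comap (e : F →+* F₁) →+* ZMod p) :=
    { toFun := fun y => y.comp (resEquiv e R : _ →+* R)
      invFun := fun y => y.comp ((resEquiv e R).symm : R →+* _)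
      left_inv := fun y => by
        ext x
        exact congrArg y ((resEquiv e R).apply_symm_apply x)
      right_inv := fun y => by
        ext x
        exact congrArg y ((resEquiv e R).symm_apply_apply x) }
  let g' : {y : R →+* ZMod p // Inert (e' θ) R y} ≃
      {y : R.comap (e : F →+* F₁) →+* ZMod p // Inert θ (R.comap (e : F →+* F₁)) y} :=
    Equiv.subtypeEquiv g (inert_equiv e e' h R θ)
  rw [← finsum_comp_equiv g']
  refine finsum_congr fun y => ?_
  rw [WeierstrassCurve.map_map]
  rfl

theorem meanTrace_equiv (E : WeierstrassCurve F) :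
    meanTrace N₁ (E.map (e : F →+* F₁)) = meanTrace N E := by
  let c : Gal(N/F) ≃* Gal(N₁/F₁) :=
    { toFun := fun g => AlgEquiv.ofRingEquiv (f := (e'.symm.trans g.toRingEquiv).trans e') (by
        intro x
        change e' (g (e'.symm (algebraMap F₁ N₁ x))) = _
        have h1 : e'.symm (algebraMap F₁ N₁ x) = algebraMap F N (e.symm x) := by
          rw [RingEquiv.symm_apply_eq, h, e.apply_symm_apply]
        rw [h1, g.commutes, h, e.apply_symm_apply])
      invFun := fun g => AlgEquiv.ofRingEquiv (f := (e'.trans g.toRingEquiv).trans e'.symm) (by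
        intro x
        change e'.symm (g (e' (algebraMap F N x))) = _
        rw [h, g.commutes, RingEquiv.symm_apply_eq, h])
      left_inv := fun g => by
        ext x
        change e'.symm (e' (g (e'.symm (e' x)))) = g x
        rw [e'.symm_apply_apply, e'.symm_apply_apply]
      right_inv := fun g => by
        ext x
        change e' (e'.symm (g (e' (e'.symm x)))) = g x
        rw [e'.apply_symm_apply, e'.apply_symm_apply]
      map_mul' := fun g g' => by
        ext x
        change e' (g (g' (e'.symm x))) = e' (g (e'.symm (e' (g' (e'.symm x)))))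
        rw [e'.symm_apply_apply] }
  have hc : ∀ (g : Gal(N/F)) (x : N), e' (g x) = c g (e' x) := by
    intro g x
    change e' (g x) = e' (g (e'.symm (e' x)))
    rw [e'.symm_apply_apply]
  have hz : ∀ g : Gal(N/F), Subgroup.zpowers g = ⊤ ↔ Subgroup.zpowers (c g) = ⊤ := by
    intro g
    have h1 : Subgroup.zpowers (c g) = (Subgroup.zpowers g).map c.toMonoidHom := by
      rw [MonoidHom.map_zpowers]
      rfl
    rw [h1]
    constructor
    · intro h2
      rw [h2, ← MonoidHom.range_eq_map]
      exact MonoidHom.range_eq_top.2 c.surjective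
    · intro h2
      apply Subgroup.map_injective (f := c.toMonoidHom) c.injective
      rw [h2, ← MonoidHom.range_eq_map]
      exact (MonoidHom.range_eq_top.2 c.surjective).symm
  unfold meanTrace
  rw [← Nat.card_congr c.toEquiv]
  congr 1
  rw [← finsum_comp_equiv (Equiv.subtypeEquiv c.toEquiv hz)]
  exact finsum_congr fun g =>
    (pointTrace_equiv (e : F →+* F₁) e' h E g.1 (c g.1) (hc g.1)).symm

/-- The formula for isomorphic extensions. -/
theorem inertNagao_equiv [CharZero F] [CharZero F₁] (U : Set ℂ) (E : WeierstrassCurve F)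
    (hn : InertNagao N U E) : InertNagao N₁ U (E.map (e : F →+* F₁)) := by
  obtain ⟨⟨r, hr⟩, hn⟩ := hn
  have hr' : mwRank ((E.map (e : F →+* F₁)).map (algebraMap F₁ N₁)) = r := by
    rw [WeierstrassCurve.map_map]
    have h1 : (algebraMap F₁ N₁).comp (e : F →+* F₁) = (e' : N →+* N₁).comp (algebraMap F N) := by
      ext x
      exact (h x).symm
    rw [h1, ← WeierstrassCurve.map_map, mwRank_equiv, hr]
  refine ⟨⟨r, hr'⟩, fun θ₁ hθ₁ => ?_⟩
  obtain ⟨θ, rfl⟩ := e'.surjective θ₁
  obtain ⟨R₀, hR₀, hn⟩ := hn θ (adjoin_equiv e e' h hθ₁)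
  refine ⟨R₀.map (e : F →+* F₁), fg_map e hR₀, fun R hR hle => ?_⟩
  obtain ⟨W, hW, hWu, hgood⟩ := hn (R.comap (e : F →+* F₁)) (fg_comap e hR)
    (Subring.map_le_iff_le_comap.1 hle)
  refine ⟨W.map (resEquiv e R : _ →+* R), ?_, ?_, ?_⟩
  · rw [← hW, WeierstrassCurve.map_map, WeierstrassCurve.map_map]
    rfl
  · rw [WeierstrassCurve.map_Δ]
    exact hWu.map _
  · have h1 : inertTerm (e' θ) R (W.map (resEquiv e R : _ →+* R)) =
        inertTerm θ (R.comap (e : F →+* F₁)) W := by
      funext s p
      unfold inertTerm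
      rw [inertSum_equiv e e' h, dim_equiv e]
    rw [h1, meanTrace_equiv e e' h]
    exact hgood

end

end Pool.Agent.MP_3d3918.H97
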