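import Pool.Agent.Lib.MP_3d3918_nt.H97.Class
import Pool.Agent.Lib.MP_3d3918_nt.RatGen

/-!
# The conjugacy classes of the absolute Galois group of the field of rational functions
-/

set_option autoImplicit false

open Polynomial Topology

namespace Pool.Agent.MP_3d3918.H97

open Pool.Agent.MP_3d3918

theorem ratVar_indep (n : ℕ) : AlgebraicIndependent ℚ (ratVar n) := by
  have h1 := (MvPolynomial.algebraicIndependent_X (Fin (n + 1)) ℚ).map'
    (f := (IsScalarTower.toAlgHom ℚ (MvPolynomial (Fin (n + 1)) ℚ) (RatField n)))
    (IsFractionRing.injective (MvPolynomial (Fin (n + 1)) ℚ) (RatField n))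
  exact h1

/-- The field generated by the other variables. -/
noncomputable def constField (n : ℕ) : IntermediateField ℚ (RatField n) :=
  IntermediateField.adjoin ℚ (ratVar n '' {i | i ≠ 0})

theorem ratVar_transcendental (n : ℕ) : Transcendental (constField n) (ratVar n 0) := by
  unfold constField
  rw [IntermediateField.transcendental_adjoin_iff]
  exact (ratVar_indep n).transcendental_adjoin (fun h => h rfl)

theorem uncountable_class_of_ratGen {K : Type} [Field K] [CharZero K]
    (k : IntermediateField ℚ K) (t : K) (ht : Transcendental k t)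
    (hgen : ∀ y : K, ∃ P Q : Polynomial k, aeval t Q ≠ 0 ∧ y = aeval t P / aeval t Q)
    (σ : Gal(AlgebraicClosure K/K)) (hσ : σ ≠ 1) :
    ¬ (Set.range fun τ : Gal(AlgebraicClosure K/K) => τ * σ * τ⁻¹).Countable := by
  let _ : Algebra (Polynomial k) K := (aeval t : Polynomial k →ₐ[k] K).toRingHom.toAlgebra
  have halg : ∀ P : Polynomial k, algebraMap (Polynomial k) K P = aeval t P := fun P => rfl
  have hinj : Function.Injective (algebraMap (Polynomial k) K) :=
    transcendental_iff_injective.1 ht
  have frac : IsFractionRing (Polynomial k) K := by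
    refine ⟨?_, ?_, ?_⟩
    · intro y
      exact IsUnit.mk0 _ (by
        rw [Ne, map_eq_zero_iff _ hinj]
        exact nonZeroDivisors.coe_ne_zero y)
    · intro z
      obtain ⟨P, Q, hQ, rfl⟩ := hgen z
      have hQ0 : Q ≠ 0 := by
        rintro rfl
        exact hQ (map_zero _)
      refine ⟨(P, ⟨Q, mem_nonZeroDivisors_of_ne_zero hQ0⟩), ?_⟩
      rw [halg, halg]
      exact div_mul_cancel₀ _ hQ
    · intro x y hxy
      exact ⟨1, by rw [hinj hxy]⟩
  exact Centre.uncountable_class k σ hσ

/-- The conjugacy class of a nontrivial automorphism is uncountable. -/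
theorem uncountable_class_rat (n : ℕ) (σ : Gal(AlgebraicClosure (RatField n)/RatField n))
    (hσ : σ ≠ 1) :
    ¬ (Set.range fun τ : Gal(AlgebraicClosure (RatField n)/RatField n) =>
      τ * σ * τ⁻¹).Countable := by
  refine uncountable_class_of_ratGen (constField n) (ratVar n 0) (ratVar_transcendental n) ?_ σ hσ
  intro y
  obtain ⟨P, Q, hQ, hy⟩ := ratGen_ratField n 0 y
  have hle : otherVars n 0 ≤ (constField n).toSubfield := by
    unfold otherVars
    rw [Subfield.closure_le]
    rintro z ⟨j, hj, rfl⟩
    exact IntermediateField.subset_adjoin ℚ _ ⟨j, hj, rfl⟩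
  let ι : otherVars n 0 →+* constField n := Subfield.inclusion hle
  have hι : ∀ R : Polynomial (otherVars n 0), aeval (ratVar n 0) (R.map ι) =
      aeval (ratVar n 0) R := by
    intro R
    rw [aeval_def, eval₂_map, aeval_def]
    rfl
  exact ⟨P.map ι, Q.map ι, by rw [hι]; exact hQ, by rw [hι, hι]; exact hy⟩

end Pool.Agent.MP_3d3918.H97
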