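import Pool.Agent.Lib.MP_3d3918_nt.H97.All
import Pool.Agent.Lib.MP_3d3918_nt.H97.ConjPair
import Pool.Agent.Lib.MP_3d3918_nt.H97.Rat

/-!
# All elliptic curves, the inert points and most automorphisms
-/

set_option autoImplicit false

open Filter Topology

namespace Pool.Agent.MP_3d3918.H97

open Pool.Agent.MP_3d3918

theorem meets_classes (n : ℕ) (S : Set Gal(AlgebraicClosure (RatField n)/RatField n))
    (h1 : 1 ∈ S) (hS : Sᶜ.Countable) (σ : Gal(AlgebraicClosure (RatField n)/RatField n)) :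
    ∃ τ : Gal(AlgebraicClosure (RatField n)/RatField n), τ * σ * τ⁻¹ ∈ S := by
  by_cases hσ : σ = 1
  · refine ⟨1, ?_⟩
    rw [hσ, mul_one, mul_inv_cancel]
    exact h1
  · by_contra hcon
    push Not at hcon
    refine uncountable_class_rat n σ hσ (hS.mono ?_)
    rintro _ ⟨τ, rfl⟩
    exact hcon τ

theorem all_iff_most (U : Set ℂ) (n : ℕ)
    (N : ℕ → IntermediateField (RatField n) (AlgebraicClosure (RatField n))) (hmono : Monotone N)
    (hfin : ∀ i, FiniteDimensional (RatField n) (N i)) (hgal : ∀ i, IsGalois (RatField n) (N i))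
    (hex : ∀ x, ∃ i, x ∈ N i) (S : Set Gal(AlgebraicClosure (RatField n)/RatField n))
    (hS : ∀ σ, ∃ τ, τ * σ * τ⁻¹ ∈ S) :
    AllNagao U (n + 1) ↔ ∀ σ ∈ S, ∃ᶠ i in atTop,
      InertPair U (univCurve n) (fixedIn (N i) σ) (N i) (fixedIn_le (N i) σ) := by
  rw [all_iff_inert U n N hmono hfin hgal hex]
  refine ⟨fun h σ _ => h σ, fun h σ => ?_⟩
  obtain ⟨τ, hτ⟩ := hS σ
  refine (h _ hτ).mono fun i hi => ?_
  have := hfin i
  have := hgal i
  have h1 := inertPair_conj U (univCurve n) (N i) (τ * σ * τ⁻¹) τ⁻¹ hi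
  have h2 : τ⁻¹ * (τ * σ * τ⁻¹) * τ⁻¹⁻¹ = σ := by group
  rw [h2] at h1
  exact h1

theorem all_iff_countable (U : Set ℂ) (n : ℕ)
    (N : ℕ → IntermediateField (RatField n) (AlgebraicClosure (RatField n))) (hmono : Monotone N)
    (hfin : ∀ i, FiniteDimensional (RatField n) (N i)) (hgal : ∀ i, IsGalois (RatField n) (N i))
    (hex : ∀ x, ∃ i, x ∈ N i) (X : Set Gal(AlgebraicClosure (RatField n)/RatField n))
    (hX : X.Countable) (h1 : 1 ∉ X) :
    AllNagao U (n + 1) ↔ ∀ σ ∉ X, ∃ᶠ i in atTop,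
      InertPair U (univCurve n) (fixedIn (N i) σ) (N i) (fixedIn_le (N i) σ) :=
  all_iff_most U n N hmono hfin hgal hex Xᶜ (meets_classes n Xᶜ h1 (by rwa [compl_compl]))

end Pool.Agent.MP_3d3918.H97
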