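import Pool.Agent.Lib.MP_3d3918_nt.H97.Equiv

/-!
# The formula for the inert points follows from Nagao's formula
-/

set_option autoImplicit false
set_option linter.unusedSectionVars false

open Filter Topology TensorProduct WeierstrassCurve

namespace Pool.Agent.MP_3d3918.H97

open Pool.Agent.MP_3d3918

section group

variable {G : Type} [Group G] [Fintype G]

open Classical in
/-- The indicator function of the generators of `S` is a combination of the indicator functions of
subgroups. -/
theorem exists_mobius (S : Subgroup G) : ∃ c : Subgroup G → ℤ, ∀ g : G,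
    (∑ H : Subgroup G, c H * if g ∈ H then 1 else 0) =
      if Subgroup.zpowers g = S then 1 else 0 := by
  induction hn : Nat.card S using Nat.strong_induction_on generalizing S with
  | _ n ih =>
    have ih' : ∀ S' : {S' : Subgroup G // S' < S}, ∃ c : Subgroup G → ℤ, ∀ g : G,
        (∑ H : Subgroup G, c H * if g ∈ H then 1 else 0) =
          if Subgroup.zpowers g = S'.1 then 1 else 0 := by
      intro S'
      refine ih (Nat.card S'.1) ?_ S'.1 rfl
      rw [← hn]
      by_contra hcon
      push Not at hcon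
      exact S'.2.ne (Subgroup.eq_of_le_of_card_ge S'.2.le hcon)
    choose c hc using ih'
    refine ⟨fun H => (if H = S then 1 else 0) - ∑ S' : {S' : Subgroup G // S' < S}, c S' H, ?_⟩
    intro g
    have h1 : (∑ H : Subgroup G, ((if H = S then (1 : ℤ) else 0) -
        ∑ S' : {S' : Subgroup G // S' < S}, c S' H) * if g ∈ H then 1 else 0) =
        (if g ∈ S then (1 : ℤ) else 0) -
          ∑ S' : {S' : Subgroup G // S' < S}, if Subgroup.zpowers g = S'.1 then 1 else 0 := by
      simp only [sub_mul, Finset.sum_sub_distrib]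
      congr 1
      · rw [Finset.sum_eq_single S]
        · simp
        · intro H _ hH
          rw [if_neg hH, zero_mul]
        · intro h
          exact absurd (Finset.mem_univ _) h
      · simp only [Finset.sum_mul]
        rw [Finset.sum_comm]
        exact Finset.sum_congr rfl fun S' _ => hc S' g
    rw [h1]
    by_cases hg : Subgroup.zpowers g = S
    · have h2 : g ∈ S := by
        rw [← hg]
        exact Subgroup.mem_zpowers g
      rw [if_pos h2, if_pos hg, Finset.sum_eq_zero, sub_zero]
      intro S' _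
      rw [if_neg]
      rw [hg]
      exact S'.2.ne'
    · rw [if_neg hg]
      by_cases h2 : g ∈ S
      · rw [if_pos h2]
        have h3 : Subgroup.zpowers g < S := lt_of_le_of_ne (Subgroup.zpowers_le.2 h2) hg
        rw [Finset.sum_eq_single ⟨Subgroup.zpowers g, h3⟩]
        · simp
        · intro S' _ hS'
          rw [if_neg]
          intro h4
          exact hS' (Subtype.ext h4.symm)
        · intro h
          exact absurd (Finset.mem_univ _) h
      · rw [if_neg h2, Finset.sum_eq_zero, sub_zero]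
        intro S' _
        rw [if_neg]
        intro h4
        apply h2
        apply S'.2.le
        rw [← h4]
        exact Subgroup.mem_zpowers g

end group

section

variable {K K' : Type} [Field K] [Field K'] [Algebra K K'] [FiniteDimensional K K']
  [IsGalois K K'] {θ : K'}

open Classical in
/-- The number of the points above a point. -/
theorem count_forward {R : Subring K} (hR : Large θ R)
    (hθ : IntermediateField.adjoin K {θ} = ⊤) (c : Subgroup Gal(K'/K) → ℤ)
    (hc : ∀ g : Gal(K'/K), (∑ H : Subgroup Gal(K'/K), c H * if g ∈ H then 1 else 0) =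
      if Subgroup.zpowers g = ⊤ then 1 else 0) (p : ℕ) [Fact p.Prime] (y : R →+* ZMod p) :
    (∑ H : Subgroup Gal(K'/K), c H * (Nat.card H : ℤ) *
      (Nat.card {z : ringC θ R H →+* ZMod p // z.comp (inclC θ R H) = y} : ℤ)) =
      Nat.card Gal(K'/K) * (Nat.card {z : R →+* ZMod p // z = y ∧ Inert θ R z} : ℤ) := by
  let act := rAct hR
  let k := AlgebraicClosure (ZMod p)
  obtain ⟨φ, σ, hf⟩ := (etale_ring hR hθ).exists_frob (k := k) (algebraMap (ZMod p) k) y
  have h1 : ∀ H : Subgroup Gal(K'/K), c H * (Nat.card H : ℤ) *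
      (Nat.card {z : ringC θ R H →+* ZMod p // z.comp (inclC θ R H) = y} : ℤ) =
      ∑ x : Gal(K'/K), c H * if x⁻¹ * σ * x ∈ H then 1 else 0 := by
    intro H
    have hm := mid_AR (IsScalarTower.toAlgHom K (IntermediateField.fixedField H) K') hR H
      (fixed_range H)
    have h2 := hm.count (etale_ring hR hθ) hf
    have h3 : (Nat.card {x : Gal(K'/K) // x⁻¹ * σ * x ∈ H} : ℤ) =
        ∑ x : Gal(K'/K), if x⁻¹ * σ * x ∈ H then 1 else 0 := by
      rw [Nat.card_eq_fintype_card, Fintype.card_subtype, Finset.card_filter]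
      push_cast
      rfl
    rw [← Finset.mul_sum, ← h3, ← h2, mul_assoc]
    congr 1
    push_cast
    exact mul_comm _ _
  rw [Finset.sum_congr rfl (fun H _ => h1 H), Finset.sum_comm]
  have h2 : ∀ x : Gal(K'/K), (∑ H : Subgroup Gal(K'/K), c H * if x⁻¹ * σ * x ∈ H then 1 else 0) =
      if orderOf σ = Nat.card Gal(K'/K) then 1 else 0 := by
    intro x
    rw [hc]
    have h3 : Subgroup.zpowers (x⁻¹ * σ * x) = ⊤ ↔ orderOf σ = Nat.card Gal(K'/K) := by
      have h4 : orderOf (x⁻¹ * σ * x) = orderOf σ :=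
        SemiconjBy.orderOf_eq x (by
          change x * (x⁻¹ * σ * x) = σ * x
          group)
      rw [zpowers_eq_iff (C := (⊤ : Subgroup Gal(K'/K))) (Subgroup.mem_top _), h4,
        Subgroup.card_top]
    simp only [h3]
  rw [Finset.sum_congr rfl (fun x _ => h2 x), Finset.sum_const, Finset.card_univ, nsmul_eq_mul,
    ← Nat.card_eq_fintype_card]
  congr 1
  have h4 := (etale_ring hR hθ).inert_iff hf (Module.finrank K K')
  rw [← IsGalois.card_aut_eq_finrank] at h4
  have h5 : Inert θ R y ↔ orderOf σ = Nat.card Gal(K'/K) := by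
    unfold Inert
    rw [← IsGalois.card_aut_eq_finrank]
    exact h4
  by_cases hy : Inert θ R y
  · rw [if_pos (h5.1 hy)]
    have h3 : Nat.card {z : R →+* ZMod p // z = y ∧ Inert θ R z} = 1 := by
      rw [Nat.card_eq_one_iff_unique]
      exact ⟨⟨fun a b => Subtype.ext (a.2.1.trans b.2.1.symm)⟩, ⟨⟨y, rfl, hy⟩⟩⟩
    rw [h3, Nat.cast_one]
  · rw [if_neg (fun h => hy (h5.2 h))]
    have h3 : Nat.card {z : R →+* ZMod p // z = y ∧ Inert θ R z} = 0 := by
      rw [Nat.card_eq_zero]
      left
      exact ⟨fun a => hy (a.2.1 ▸ a.2.2)⟩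
    rw [h3, Nat.cast_zero]

open Classical in
/-- The sum over the inert points in terms of the sums over all points. -/
theorem inertSum_forward [CharZero K] {R : Subring K} (hfg : FG R) (hR : Large θ R)
    (hθ : IntermediateField.adjoin K {θ} = ⊤) (c : Subgroup Gal(K'/K) → ℤ)
    (hc : ∀ g : Gal(K'/K), (∑ H : Subgroup Gal(K'/K), c H * if g ∈ H then 1 else 0) =
      if Subgroup.zpowers g = ⊤ then 1 else 0) (p : ℕ) [Fact p.Prime] (W : WeierstrassCurve R) :
    (∑ H : Subgroup Gal(K'/K), c H * (Nat.card H : ℤ) *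
      fibreSum p (ringC θ R H) (W.map (inclC θ R H))) =
      Nat.card Gal(K'/K) * inertSum θ p R W := by
  have fin1 := finite_hom hfg p
  have fin2 : ∀ C : Subgroup Gal(K'/K), Finite (ringC θ R C →+* ZMod p) := fun C =>
    finite_hom (fg_AR hfg hR C _ (fixed_range C)) p
  have := Fintype.ofFinite (R →+* ZMod p)
  have h0 : inertSum θ p R W = ∑ y : R →+* ZMod p,
      (Nat.card {z : R →+* ZMod p // z = y ∧ Inert θ R z} : ℤ) * trace p (W.map y) := by
    have h1 := sum_above (p := p) (RingHom.id R) (fun z => Inert θ R z) W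
    rw [W.map_id, finsum_eq_sum_of_fintype (α := R →+* ZMod p)] at h1
    exact h1
  have h1 : ∀ H : Subgroup Gal(K'/K), c H * (Nat.card H : ℤ) *
      fibreSum p (ringC θ R H) (W.map (inclC θ R H)) =
      ∑ y : R →+* ZMod p, (c H * (Nat.card H : ℤ) *
        (Nat.card {z : ringC θ R H →+* ZMod p // z.comp (inclC θ R H) = y} : ℤ)) *
          trace p (W.map y) := by
    intro H
    have := fin2 H
    rw [fibreSum_above, finsum_eq_sum_of_fintype, Finset.mul_sum]
    exact Finset.sum_congr rfl fun y _ => (mul_assoc _ _ _).symm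
  rw [Finset.sum_congr rfl (fun H _ => h1 H), Finset.sum_comm, h0, Finset.mul_sum]
  refine Finset.sum_congr rfl fun y _ => ?_
  rw [← Finset.sum_mul, count_forward hR hθ c hc p y]
  ring

open Classical in
theorem sum_mem_eq {G : Type} [Group G] [Fintype G] (H : Subgroup G) (u : G → ℚ) :
    (∑ᶠ h : H, u h.1) = ∑ g : G, u g * if g ∈ H then 1 else 0 := by
  rw [finsum_eq_sum_of_fintype]
  have h1 : ∀ g : G, (u g * if g ∈ H then 1 else 0) = if g ∈ H then u g else 0 := by
    intro g
    split_ifs <;> simp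
  rw [Finset.sum_congr rfl (fun g _ => h1 g), ← Finset.sum_filter]
  exact (Finset.sum_subtype (Finset.univ.filter fun g => g ∈ H) (fun g => by simp) u).symm

open Classical in
/-- The ranks. -/
theorem ranks_forward (E : WeierstrassCurve K) (c : Subgroup Gal(K'/K) → ℤ)
    (hc : ∀ g : Gal(K'/K), (∑ H : Subgroup Gal(K'/K), c H * if g ∈ H then 1 else 0) =
      if Subgroup.zpowers g = ⊤ then 1 else 0) (r : Subgroup Gal(K'/K) → ℕ)
    (hr : ∀ H, mwRank (E.map (algebraMap K (IntermediateField.fixedField H))) = r H) :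
    (∃ r₀ : ℕ, mwRank (E.map (algebraMap K K')) = r₀) ∧
      (∑ H : Subgroup Gal(K'/K), (c H : ℚ) * (Nat.card H : ℚ) * (r H : ℚ)) =
        Nat.card Gal(K'/K) * meanTrace K' E := by
  let A := (E.baseChange K').toAffine.Point
  have hA : Module.rank ℤ A = r ⊥ := by
    obtain ⟨e⟩ := exists_equiv E (⊥ : Subgroup Gal(K'/K)) _ _ (fixed_range ⊥)
    have h0 := hr ⊥
    rw [mwRank_eq inferInstance] at h0
    rw [← h0]
    have h1 : fixedSub A (⊥ : Subgroup Gal(K'/K)) = ⊤ := by
      rw [eq_top_iff]
      intro a _ h hh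
      rw [Subgroup.mem_bot.1 hh, one_smul]
    have h2 : Module.rank ℤ (fixedSub A (⊥ : Subgroup Gal(K'/K))) = Module.rank ℤ A := by
      rw [h1, rank_top]
    rw [← h2]
    exact e.rank_eq.symm
  have hA' : Module.rank ℤ A < Cardinal.aleph0 := by
    rw [hA]
    exact Cardinal.natCast_lt_aleph0
  have hfin := finite_V hA'
  refine ⟨⟨r ⊥, by rw [mwRank_eq inferInstance]; exact hA⟩, ?_⟩
  have hrank : ∀ H : Subgroup Gal(K'/K), (Nat.card H : ℚ) * (r H : ℚ) =
      ∑ g : Gal(K'/K), pointTrace K' E g * if g ∈ H then 1 else 0 := by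
    intro H
    have h1 := finrank_fixed (A := A) H hfin
    rw [← sum_mem_eq]
    have h2 : Module.finrank ℤ (fixedSub A H) = r H := by
      obtain ⟨e'⟩ := exists_equiv E H _ _ (fixed_range H)
      rw [← e'.finrank_eq]
      unfold Module.finrank
      have h3 := hr H
      rw [mwRank_eq inferInstance] at h3
      change Cardinal.toNat (Module.rank ℤ
        (E.map (algebraMap K (IntermediateField.fixedField H))).toAffine.Point) = _
      rw [h3, Cardinal.toNat_natCast]
    rw [h2] at h1
    exact h1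
  have h1 : ∀ H : Subgroup Gal(K'/K), (c H : ℚ) * (Nat.card H : ℚ) * (r H : ℚ) =
      ∑ g : Gal(K'/K), pointTrace K' E g * ((c H : ℚ) * if g ∈ H then 1 else 0) := by
    intro H
    rw [mul_assoc, hrank, Finset.mul_sum]
    exact Finset.sum_congr rfl fun g _ => by ring
  rw [Finset.sum_congr rfl (fun H _ => h1 H), Finset.sum_comm]
  have h2 : ∀ g : Gal(K'/K), (∑ H : Subgroup Gal(K'/K),
      pointTrace K' E g * ((c H : ℚ) * if g ∈ H then 1 else 0)) =
      if Subgroup.zpowers g = ⊤ then pointTrace K' E g else 0 := by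
    intro g
    rw [← Finset.mul_sum]
    have h3 : (∑ H : Subgroup Gal(K'/K), ((c H : ℚ) * if g ∈ H then 1 else 0)) =
        if Subgroup.zpowers g = ⊤ then 1 else 0 := by
      have h4 := hc g
      have h5 : ((∑ H : Subgroup Gal(K'/K), c H * if g ∈ H then 1 else 0 : ℤ) : ℚ) =
          ((if Subgroup.zpowers g = ⊤ then 1 else 0 : ℤ) : ℚ) := by rw [h4]
      push_cast at h5
      exact h5
    rw [h3]
    split_ifs <;> simp
  rw [Finset.sum_congr rfl (fun g _ => h2 g), ← Finset.sum_filter]
  have hG : (Nat.card Gal(K'/K) : ℚ) ≠ 0 := by exact_mod_cast Nat.card_pos.ne'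
  unfold meanTrace
  rw [mul_div_cancel₀ _ hG, finsum_eq_sum_of_fintype]
  exact Finset.sum_subtype (Finset.univ.filter fun g : Gal(K'/K) => Subgroup.zpowers g = ⊤)
    (fun g => by simp) (fun g => pointTrace K' E g)

/-- The formula for the inert points follows from Nagao's formula. -/
theorem inert_of_nagao [CharZero K] [CharZero K'] (U : Set ℂ) (E : WeierstrassCurve K)
    [E.IsElliptic] (h : ∀ H : Subgroup Gal(K'/K),
      Nagao U (E.map (algebraMap K (IntermediateField.fixedField H)))) : InertNagao K' U E := by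
  classical
  obtain ⟨c, hc⟩ := exists_mobius (⊤ : Subgroup Gal(K'/K))
  -- the thresholds
  have h' : ∀ H : Subgroup Gal(K'/K), ∃ s : Finset
      (IntermediateField.fixedField H), ∀ R : Subring (IntermediateField.fixedField H), FG R →
        (s : Set (IntermediateField.fixedField H)) ⊆ R →
        NagaoAt U (E.map (algebraMap K (IntermediateField.fixedField H))) R := by
    intro H
    obtain ⟨R₀, ⟨s, hs⟩, hR₀⟩ := h H
    refine ⟨s, fun R hR hsR => hR₀ R hR ?_⟩
    rw [← hs, Subring.closure_le]
    exact hsR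
  choose s hs using h'
  have hrank : ∀ H : Subgroup Gal(K'/K), ∃ r : ℕ,
      mwRank (E.map (algebraMap K (IntermediateField.fixedField H))) = r := by
    intro H
    obtain ⟨R₀, hR₀, h1⟩ := h H
    obtain ⟨W, r, -, -, hr, -⟩ := (h1 R₀ hR₀ le_rfl).exists
    exact ⟨r, hr⟩
  choose r hr using hrank
  obtain ⟨hrK, hsum⟩ := ranks_forward E c hc r hr
  refine ⟨hrK, fun θ hθ => ?_⟩
  obtain ⟨T₁, hT₁⟩ := exists_large θ hθ
  obtain ⟨T₂, hT₂⟩ := exists_finset_set θ hθ
    (⋃ H : Subgroup Gal(K'/K),
      ((fun x : IntermediateField.fixedField H => (x : K')) '' (s H : Set _)))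
    (Set.finite_iUnion fun H => (Finset.finite_toSet _).image _)
  obtain ⟨T₃, hT₃⟩ := exists_model E
  refine ⟨Subring.closure ((T₁ ∪ T₂ ∪ T₃ : Finset K) : Set K), fg_closure _, ?_⟩
  intro R hR hle
  have hsub : ((T₁ ∪ T₂ ∪ T₃ : Finset K) : Set K) ⊆ R := fun x hx =>
    hle (Subring.subset_closure hx)
  have hl : Large θ R := hT₁ R fun x hx => hsub (by
    simp only [Finset.coe_union, Set.mem_union]; tauto)
  have hgen := hT₂ R fun x hx => hsub (by
    simp only [Finset.coe_union, Set.mem_union]; tauto)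
  obtain ⟨W, hW, hWu⟩ := hT₃ R fun x hx => hsub (by
    simp only [Finset.coe_union, Set.mem_union]; tauto)
  -- the formulas
  have key : ∀ H ∈ (Finset.univ : Finset (Subgroup Gal(K'/K))),
      Good U (term (IntermediateField.fixedField H) (ringC θ R H) (W.map (inclC θ R H))) (r H) := by
    intro H _
    obtain ⟨W', r', hW', -, hr', hgood⟩ := (hs H (ringC θ R H) (fg_AR hR hl H _ (fixed_range H)) (by
        intro x hx
        change (x : K') ∈ BR θ R
        exact hgen _ (Set.mem_iUnion.2 ⟨H, x, hx, rfl⟩))).exists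
    have h1 : W' = W.map (inclC θ R H) := by
      apply model_unique
      rw [hW', WeierstrassCurve.map_map, subtype_incl, ← WeierstrassCurve.map_map, hW]
    rw [h1] at hgood
    have h2 : r' = r H := by
      have h3 := hr'.symm.trans (hr H)
      exact_mod_cast h3
    rw [h2] at hgood
    exact hgood
  refine ⟨W, hW, hWu, ?_⟩
  have hN : (Nat.card Gal(K'/K) : ℂ) ≠ 0 := by
    exact_mod_cast Nat.card_pos.ne'
  have hN' : (Nat.card Gal(K'/K) : ℚ) ≠ 0 := by
    exact_mod_cast Nat.card_pos.ne'
  have hcomb := Good.combine (Finset.univ : Finset (Subgroup Gal(K'/K)))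
    (fun H => (c H : ℂ) * (Nat.card H : ℂ) / (Nat.card Gal(K'/K) : ℂ)) _ _ key
  have h1 : ∑ H : Subgroup Gal(K'/K), (c H : ℂ) * (Nat.card H : ℂ) /
      (Nat.card Gal(K'/K) : ℂ) * (r H : ℂ) = ((meanTrace K' E : ℚ) : ℂ) := by
    have h3 : meanTrace K' E = (∑ H : Subgroup Gal(K'/K),
        (c H : ℚ) * (Nat.card H : ℚ) * (r H : ℚ)) / Nat.card Gal(K'/K) := by
      rw [hsum, mul_div_cancel_left₀ _ hN']
    rw [h3]
    push_cast
    rw [Finset.sum_div]
    refine Finset.sum_congr rfl fun C _ => ?_
    ring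
  have h2 : (fun (s : ℂ) (p : Nat.Primes) => ∑ H : Subgroup Gal(K'/K),
      (c H : ℂ) * (Nat.card H : ℂ) / (Nat.card Gal(K'/K) : ℂ) *
        term (IntermediateField.fixedField H) (ringC θ R H) (W.map (inclC θ R H)) s p) =
      inertTerm θ R W := by
    funext s p
    have hp : Fact (p : ℕ).Prime := ⟨p.2⟩
    have h3 := inertSum_forward hR hl hθ c hc p W
    have h4 : ∑ H : Subgroup Gal(K'/K), (c H : ℂ) * (Nat.card H : ℂ) *
        (fibreSum p (ringC θ R H) (W.map (inclC θ R H)) : ℂ) =
        (Nat.card Gal(K'/K) : ℂ) * (inertSum θ p R W : ℂ) := by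
      exact_mod_cast h3
    have h5 : ∀ C : Subgroup Gal(K'/K), dim (IntermediateField.fixedField C) = dim K := fun C =>
      dim_eq
    unfold inertTerm term
    simp only [h5]
    have h6 : ∀ H : Subgroup Gal(K'/K), (c H : ℂ) * (Nat.card H : ℂ) /
        (Nat.card Gal(K'/K) : ℂ) *
        ((fibreSum p (ringC θ R H) (W.map (inclC θ R H)) : ℂ) / ((p : ℕ) : ℂ) ^ (dim K) *
        (Real.log (p : ℕ) : ℂ) * ((p : ℕ) : ℂ) ^ (-s)) =
        ((c H : ℂ) * (Nat.card H : ℂ) *
          (fibreSum p (ringC θ R H) (W.map (inclC θ R H)) : ℂ)) *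
        ((Nat.card Gal(K'/K) : ℂ)⁻¹ / ((p : ℕ) : ℂ) ^ (dim K) *
        (Real.log (p : ℕ) : ℂ) * ((p : ℕ) : ℂ) ^ (-s)) := by
      intro H
      ring
    rw [Finset.sum_congr rfl (fun H _ => h6 H), ← Finset.sum_mul, h4]
    field_simp
  rw [h1, h2] at hcomb
  exact hcomb

end

end Pool.Agent.MP_3d3918.H97
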