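import Pool.Agent.Lib.MP_3d3918_nt.H97.Torsor
import Pool.Agent.Lib.MP_3d3918_nt.H97.Defs

/-!
# Inert points
-/

set_option autoImplicit false
set_option linter.unusedSectionVars false

open Polynomial

namespace Pool.Agent.MP_3d3918.H97

open Pool.Agent.MP_3d3918

section

variable {R B G k : Type} [CommRing R] [CommRing B] [Group G] [Finite G] [MulSemiringAction G B]
  [Field k] [IsAlgClosed k] {p : ℕ} [Fact p.Prime]
  {i : R →+* B} {θ : B} {ι : ZMod p →+* k} {y : R →+* ZMod p}

theorem exists_embed (ι : ZMod p →+* k) {k' : Type} [Field k'] [Finite k'] (ι' : ZMod p →+* k') :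
    ∃ ε : k' →+* k, ε.comp ι' = ι := by
  let _ : Algebra (ZMod p) k' := ι'.toAlgebra
  let _ : Algebra (ZMod p) k := ι.toAlgebra
  have h1 : Module.Finite (ZMod p) k' := Module.Finite.of_finite
  have h2 : Algebra.IsAlgebraic (ZMod p) k' := Algebra.IsAlgebraic.of_finite (ZMod p) k'
  let f : k' →ₐ[ZMod p] k := IsAlgClosed.lift
  exact ⟨f, RingHom.ext fun x => f.commutes x⟩

/-- A point is inert if and only if Frobenius has the maximal order. -/
theorem Etale.inert_iff (h : Etale i θ G) {φ : B →+* k} {σ : G} (hf : IsFrob i ι y φ σ) (m : ℕ) :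
    InertAbs i y m ↔ orderOf σ = m := by
  classical
  have hp1 : 1 < p := (Fact.out : p.Prime).one_lt
  constructor
  · rintro ⟨k', _, ι', ψ, hψ, hcard, hψi⟩
    have fin : Finite k' := Nat.finite_of_card_ne_zero (by
      rw [hcard]
      exact pow_ne_zero _ (by omega))
    obtain ⟨ε, hε⟩ := exists_embed ι ι'
    have hover : ∀ r, (ε.comp ψ) (i r) = ι (y r) := by
      intro r
      rw [RingHom.comp_apply, hψi, ← hε, RingHom.comp_apply]
    obtain ⟨g, hg⟩ := h.exists_smul (ι := ι) (y := y) (φ := φ) (φ' := ε.comp ψ) hf.above hover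
    have h1 : ε.comp ψ = φ.comp (MulSemiringAction.toRingHom G B g) := RingHom.ext hg
    have h2 := hf.conj g (fun r => h.smul_i g r)
    rw [← h1] at h2
    have h3 := h.card_range h2
    have h4 : Nat.card (ε.comp ψ).range = Nat.card k' := by
      have h5 : (ε.comp ψ).range = ε.range := by
        rw [← RingHom.map_range, RingHom.range_eq_top.2 hψ, ← RingHom.range_eq_map]
      rw [h5]
      exact (Nat.card_congr (Equiv.ofInjective ε ε.injective)).symm
    rw [h4, hcard] at h3
    have h5 : orderOf (g⁻¹ * σ * g) = orderOf σ :=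
      SemiconjBy.orderOf_eq g (by
        change g * (g⁻¹ * σ * g) = σ * g
        group)
    rw [h5] at h3
    exact (Nat.pow_right_injective hp1 h3).symm
  · intro hm
    have h3 := h.card_range hf
    have fin : Finite φ.range := Nat.finite_of_card_ne_zero (by
      rw [h3]
      exact pow_ne_zero _ (by omega))
    have := Fintype.ofFinite φ.range
    let kf : Field φ.range := Fintype.fieldOfDomain φ.range
    have hι : ∀ x, ι x ∈ φ.range := by
      intro x
      obtain ⟨n, rfl⟩ := ZMod.intCast_surjective x
      rw [map_intCast]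
      exact intCast_mem _ n
    refine ⟨φ.range, kf, ι.codRestrict φ.range hι, φ.rangeRestrict, φ.rangeRestrict_surjective,
      ?_, ?_⟩
    · rw [h3, hm]
    · intro r
      exact Subtype.ext (hf.above r)

end

end Pool.Agent.MP_3d3918.H97
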