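import Pool.Agent.Lib.MP_3d3918_nt.H97.Trace

/-!
# The mean traces in a tower of fields
-/

set_option autoImplicit false
set_option linter.unusedSectionVars false

open TensorProduct WeierstrassCurve WeierstrassCurve.Affine

namespace Pool.Agent.MP_3d3918.H97

open Pool.Agent.MP_3d3918

section

variable {K K' : Type} [Field K] [Field K'] [Algebra K K'] [DecidableEq K'] (E : WeierstrassCurve K)

/-- The points over the field of the elements fixed by `H`. -/
theorem point_range (H : Subgroup Gal(K'/K)) (L : Type) [Field L] [DecidableEq L] [Algebra K L]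
    (f : L →ₐ[K] K') (hf : ∀ x : K', (∀ σ ∈ H, σ x = x) ↔ x ∈ Set.range f)
    (a : (E.baseChange K').toAffine.Point) :
    (∀ σ ∈ H, σ • a = a) ↔ a ∈ Set.range (Point.map (W' := E) f) := by
  have hfix : ∀ (σ : Gal(K'/K)), σ ∈ H → ∀ x : L, σ (f x) = f x := fun σ hσ x =>
    (hf _).2 ⟨x, rfl⟩ σ hσ
  constructor
  · intro hP
    rcases a with _ | ⟨x, y, hn⟩
    · exact ⟨0, rfl⟩
    · have h1 : ∀ σ ∈ H, σ x = x ∧ σ y = y := by
        intro σ hσ
        have h2 := hP σ hσ
        rw [smul_def', Point.map_some] at h2
        exact Point.some.inj h2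
      obtain ⟨a, rfl⟩ := (hf x).1 fun σ hσ => (h1 σ hσ).1
      obtain ⟨b, rfl⟩ := (hf y).1 fun σ hσ => (h1 σ hσ).2
      exact ⟨Point.some _ _ ((E.toAffine.baseChange_nonsingular f.injective ..).1 hn), rfl⟩
  · rintro ⟨P, rfl⟩ σ hσ
    rw [smul_def', Point.map_map]
    have : (σ : K' →ₐ[K] K').comp f = f := by
      ext x
      exact hfix σ hσ x
    rw [this]

end

section

variable {K N K' : Type} [Field K] [Field N] [Field K'] [Algebra K N] [Algebra K K'] [Algebra N K']
  [IsScalarTower K N K'] [FiniteDimensional K K'] [IsGalois K K'] [IsGalois K N]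

theorem fixed_ker (x : K') : (∀ σ ∈ (AlgEquiv.restrictNormalHom N : Gal(K'/K) →* Gal(N/K)).ker,
    σ x = x) ↔ x ∈ Set.range (IsScalarTower.toAlgHom K N K') := by
  have gal : IsGalois N K' := IsGalois.tower_top_of_isGalois K N K'
  have fin : FiniteDimensional N K' := Module.Finite.of_restrictScalars_finite K N K'
  have h1 : x ∈ Set.range (IsScalarTower.toAlgHom K N K') ↔ x ∈ Set.range (algebraMap N K') :=
    Iff.rfl
  rw [h1, IsGalois.mem_range_algebraMap_iff_fixed]
  constructor
  · intro h f
    refine h (f.restrictScalars K) ?_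
    rw [MonoidHom.mem_ker]
    ext y
    apply (algebraMap N K').injective
    change algebraMap N K' ((f.restrictScalars K).restrictNormal N y) = _
    rw [AlgEquiv.restrictNormal_commutes]
    exact f.commutes y
  · intro h σ hσ
    rw [MonoidHom.mem_ker] at hσ
    have h2 : ∀ y : N, σ (algebraMap N K' y) = algebraMap N K' y := by
      intro y
      have h3 := AlgEquiv.restrictNormal_commutes σ N y
      have h4 : σ.restrictNormal N y = y := by
        change AlgEquiv.restrictNormalHom N σ y = y
        rw [hσ]
        rfl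
      rw [h4] at h3
      exact h3.symm
    exact h (AlgEquiv.ofRingEquiv (f := σ.toRingEquiv) h2)

open Classical in
/-- The sum of the traces over the automorphisms with a given restriction. -/
theorem sum_restrict (E : WeierstrassCurve K)
    (hfin : Module.Finite ℚ (ℚ ⊗[ℤ] (E.baseChange K').toAffine.Point)) (h : Gal(N/K)) :
    ∑ g : {g : Gal(K'/K) // AlgEquiv.restrictNormalHom N g = h}, pointTrace K' E g.1 =
      Nat.card (AlgEquiv.restrictNormalHom N : Gal(K'/K) →* Gal(N/K)).ker *
        pointTrace N E h := by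
  set π : Gal(K'/K) →* Gal(N/K) := AlgEquiv.restrictNormalHom N with hπ
  obtain ⟨g₀, hg₀⟩ : ∃ g₀, π g₀ = h := AlgEquiv.restrictNormalHom_surjective K' h
  have h1 := coset_trace (A := (E.baseChange K').toAffine.Point)
    (B := (E.baseChange N).toAffine.Point) π.ker
    (Point.map (W' := E) (IsScalarTower.toAlgHom K N K'))
    (Point.map_injective (W' := E) (IsScalarTower.toAlgHom K N K'))
    (point_range E π.ker N (IsScalarTower.toAlgHom K N K') fixed_ker) g₀
    (Point.map (W' := E) (F := N) (K := N) (h : N →ₐ[K] N)) (by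
      intro P
      have h2 : (IsScalarTower.toAlgHom K N K').comp (h : N →ₐ[K] N) =
          (g₀ : K' →ₐ[K] K').comp (IsScalarTower.toAlgHom K N K') := by
        apply AlgHom.ext
        intro y
        change algebraMap N K' (h y) = g₀ (algebraMap N K' y)
        rw [← hg₀]
        exact AlgEquiv.restrictNormal_commutes g₀ N y
      rw [smul_def', Point.map_map, Point.map_map, h2]) hfin
  rw [Nat.card_eq_fintype_card]
  refine Eq.trans ?_ h1
  let e : π.ker ≃ {g : Gal(K'/K) // π g = h} :=
    { toFun := fun γ => ⟨g₀ * γ, by rw [map_mul, γ.2, mul_one, hg₀]⟩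
      invFun := fun g => ⟨g₀⁻¹ * g.1, by
        rw [MonoidHom.mem_ker, map_mul, map_inv, hg₀, g.2, inv_mul_cancel]⟩
      left_inv := fun γ => Subtype.ext (inv_mul_cancel_left g₀ γ.1)
      right_inv := fun g => Subtype.ext (mul_inv_cancel_left g₀ g.1) }
  rw [← Equiv.sum_comp e]
  rfl

open Classical in
/-- The mean trace as a mean over the automorphisms of a larger field. -/
theorem mean_tower (E : WeierstrassCurve K)
    (hfin : Module.Finite ℚ (ℚ ⊗[ℤ] (E.baseChange K').toAffine.Point)) :
    (∑ g : Gal(K'/K), if Subgroup.zpowers (AlgEquiv.restrictNormalHom N g) = ⊤ then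
      pointTrace K' E g else 0) = meanTrace N E * Nat.card Gal(K'/K) := by
  set π : Gal(K'/K) →* Gal(N/K) := AlgEquiv.restrictNormalHom N with hπ
  have hsurj : Function.Surjective π := AlgEquiv.restrictNormalHom_surjective K'
  have fin : Finite Gal(N/K) := Finite.of_surjective π hsurj
  have := Fintype.ofFinite Gal(N/K)
  have hcard : Nat.card Gal(K'/K) = Nat.card π.ker * Nat.card Gal(N/K) := by
    rw [← Nat.card_congr (QuotientGroup.quotientKerEquivOfSurjective π hsurj).toEquiv,
      mul_comm]
    exact Subgroup.card_eq_card_quotient_mul_card_subgroup π.ker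
  have h0 : (Nat.card Gal(N/K) : ℚ) ≠ 0 := by exact_mod_cast Nat.card_pos.ne'
  rw [← Finset.sum_fiberwise_of_maps_to (t := Finset.univ) (g := π)
    (fun _ _ => Finset.mem_univ _)]
  have h1 : ∀ h : Gal(N/K), (∑ g ∈ Finset.univ.filter (fun g => π g = h),
      if Subgroup.zpowers (π g) = ⊤ then pointTrace K' E g else 0) =
      Nat.card π.ker * (if Subgroup.zpowers h = ⊤ then pointTrace N E h else 0) := by
    intro h
    by_cases hh : Subgroup.zpowers h = ⊤
    · rw [if_pos hh, ← sum_restrict E hfin h]
      rw [Finset.sum_congr rfl (g := fun g => pointTrace K' E g) (fun g hg => by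
        rw [(Finset.mem_filter.1 hg).2, if_pos hh])]
      exact (Finset.sum_subtype _ (fun g => by simp [hπ]) _)
    · rw [if_neg hh, mul_zero]
      refine Finset.sum_eq_zero fun g hg => ?_
      rw [(Finset.mem_filter.1 hg).2, if_neg hh]
  rw [Finset.sum_congr rfl (fun h _ => h1 h), ← Finset.mul_sum]
  unfold meanTrace
  rw [hcard, Nat.cast_mul, finsum_eq_sum_of_fintype, ← Finset.sum_filter,
    ← Finset.sum_subtype (Finset.univ.filter fun h : Gal(N/K) => Subgroup.zpowers h = ⊤)
      (fun h => by simp) (fun h => pointTrace N E h)]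
  field_simp

theorem zpowers_top_iff {G G' : Type} [Group G] [Group G'] (C : Subgroup G) (e : C ≃* G') (c : C) :
    Subgroup.zpowers (e c) = ⊤ ↔ Subgroup.zpowers c.1 = C := by
  have h1 : Subgroup.zpowers (e c) = (Subgroup.zpowers c).map e.toMonoidHom := by
    rw [MonoidHom.map_zpowers]
    rfl
  have h2 : Subgroup.zpowers c.1 = (Subgroup.zpowers c).map C.subtype := by
    rw [MonoidHom.map_zpowers]
    rfl
  have h3 : Subgroup.zpowers (e c) = ⊤ ↔ Subgroup.zpowers c = ⊤ := by
    rw [h1]
    constructor
    · intro h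
      apply Subgroup.map_injective (f := e.toMonoidHom) e.injective
      rw [h, ← MonoidHom.range_eq_map]
      exact (MonoidHom.range_eq_top.2 e.surjective).symm
    · intro h
      rw [h, ← MonoidHom.range_eq_map]
      exact MonoidHom.range_eq_top.2 e.surjective
  rw [h3, h2]
  constructor
  · intro h
    rw [h, ← MonoidHom.range_eq_map, Subgroup.range_subtype]
  · intro h
    apply Subgroup.map_injective C.subtype_injective
    rw [h, ← MonoidHom.range_eq_map, Subgroup.range_subtype]

open Classical in
theorem sum_gens {G G' : Type} [Group G] [Group G'] [Fintype G] [Finite G'] (C : Subgroup G)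
    (e : C ≃* G') (u : G → ℚ) (v : G' → ℚ) (h : ∀ c : C, v (e c) = u c.1) :
    (∑ g : G, if Subgroup.zpowers g = C then u g else 0) =
      ∑ᶠ g : {g : G' // Subgroup.zpowers g = ⊤}, v g.1 := by
  have := Fintype.ofFinite G'
  rw [finsum_eq_sum_of_fintype, ← Finset.sum_filter]
  let f : {g : G // Subgroup.zpowers g = C} ≃ {g : G' // Subgroup.zpowers g = ⊤} :=
    { toFun := fun g => ⟨e ⟨g.1, g.2.le (Subgroup.mem_zpowers g.1)⟩,
        (zpowers_top_iff C e _).2 g.2⟩
      invFun := fun g => ⟨(e.symm g.1).1, (zpowers_top_iff C e _).1 (by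
        rw [e.apply_symm_apply]
        exact g.2)⟩
      left_inv := fun g => by
        apply Subtype.ext
        simp
      right_inv := fun g => by
        apply Subtype.ext
        simp }
  rw [← Equiv.sum_comp f]
  rw [Finset.sum_subtype (p := fun g => Subgroup.zpowers g = C) _ (fun g => by simp)]
  exact Finset.sum_congr rfl fun g _ => (h ⟨g.1, g.2.le (Subgroup.mem_zpowers g.1)⟩).symm

open Classical in
/-- The mean trace over the field of the elements fixed by `C`. -/
theorem mean_fixed (E : WeierstrassCurve K) (C : Subgroup Gal(K'/K)) :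
    (∑ g : Gal(K'/K), if Subgroup.zpowers g = C then pointTrace K' E g else 0) =
      meanTrace K' (E.map (algebraMap K (IntermediateField.fixedField C))) * Nat.card C := by
  set L := IntermediateField.fixedField C with hL
  have finL : FiniteDimensional L K' := Module.Finite.of_restrictScalars_finite K L K'
  let e : C ≃* Gal(K'/L) := IntermediateField.subgroupEquivAlgEquiv C
  have hcard : Nat.card Gal(K'/L) = Nat.card C := (Nat.card_congr e.toEquiv).symm
  have h0 : (Nat.card C : ℚ) ≠ 0 := by exact_mod_cast Nat.card_pos.ne'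
  have htr : ∀ c : C, pointTrace K' (E.map (algebraMap K L)) (e c) = pointTrace K' E c.1 := by
    intro c
    exact (pointTrace_equiv (algebraMap K L) (RingEquiv.refl K') (fun _ => rfl) E c.1 (e c)
      (fun _ => rfl)).symm
  have h1 := sum_gens C e _ _ htr
  unfold meanTrace
  rw [hcard, div_mul_cancel₀ _ h0]
  exact h1

end

end Pool.Agent.MP_3d3918.H97
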