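import Pool.Agent.Lib.MP_3d3918_nt.H97.Forward
import Pool.Agent.Lib.MP_3d3918_nt.Tower

/-!
# Pairs of intermediate fields
-/

set_option autoImplicit false
set_option linter.unusedSectionVars false
set_option linter.style.haveILetI false

open Filter Topology TensorProduct WeierstrassCurve

namespace Pool.Agent.MP_3d3918.H97

open Pool.Agent.MP_3d3918

section

variable {K : Type} [Field K] [CharZero K]

theorem mem_fixedIn (N : IntermediateField K (AlgebraicClosure K))
    (σ : Gal(AlgebraicClosure K/K)) (x : AlgebraicClosure K) :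
    x ∈ fixedIn N σ ↔ x ∈ N ∧ σ x = x := by
  unfold fixedIn
  rw [IntermediateField.mem_inf, IntermediateField.mem_fixedField_iff]
  refine and_congr_right fun _ => ⟨fun h => h σ (Subgroup.mem_zpowers σ), fun h ρ hρ => ?_⟩
  have h4 : σ ∈ MulAction.stabilizer Gal(AlgebraicClosure K/K) x := h
  exact (Subgroup.zpowers_le.2 h4) hρ

/-- The inclusion as an algebra. -/
@[instance_reducible]
noncomputable def incAlg {F N : IntermediateField K (AlgebraicClosure K)} (h : F ≤ N) : Algebra F N :=
  (IntermediateField.inclusion h).toRingHom.toAlgebra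

theorem inc_tower {F N M : IntermediateField K (AlgebraicClosure K)} (h : F ≤ N) (h' : N ≤ M) :
    letI := incAlg h
    letI := incAlg h'
    letI := incAlg (h.trans h')
    IsScalarTower F N M := by
  letI := incAlg h
  letI := incAlg h'
  letI := incAlg (h.trans h')
  exact IsScalarTower.of_algebraMap_eq fun x => rfl

theorem inc_tower' {F N : IntermediateField K (AlgebraicClosure K)} (h : F ≤ N) :
    letI := incAlg h
    IsScalarTower K F N := by
  letI := incAlg h
  exact IsScalarTower.of_algebraMap_eq fun x => rfl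

/-- The field fixed by a cyclic group as a subfield of the algebraic closure. -/
theorem pair_of_cyclic (U : Set ℂ) (E : WeierstrassCurve K)
    {F M : IntermediateField K (AlgebraicClosure K)} (hFM : F ≤ M) [FiniteDimensional K M]
    [IsGalois K M] (C : letI := incAlg hFM; Subgroup Gal(M/F)) (hC : IsCyclic C) :
    ∃ τ : Gal(AlgebraicClosure K/K), (∀ x : M, τ x = x ↔ ∀ c ∈ C, c x = x) ∧
      (InertPair U E (fixedIn M τ) M (fixedIn_le M τ) →
        letI := incAlg hFM
        InertNagao M U ((E.map (algebraMap K F)).map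
          (algebraMap F (IntermediateField.fixedField C)))) := by
  letI := incAlg hFM
  have tow := inc_tower' hFM
  obtain ⟨g, rfl⟩ := (Subgroup.isCyclic_iff_exists_zpowers_eq_top C).1 hC
  have norM : Normal K M := inferInstance
  have norK : Normal K (AlgebraicClosure K) := IsAlgClosure.normal K (AlgebraicClosure K)
  obtain ⟨τ, hτ⟩ := AlgEquiv.restrictNormalHom_surjective (K₁ := M) (AlgebraicClosure K)
    (g.restrictScalars K)
  have hτ' : ∀ x : M, τ x = ((g x : M) : AlgebraicClosure K) := by
    intro x
    rw [← AlgEquiv.restrictNormalHom_apply M τ x, hτ]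
    rfl
  have hfix : ∀ x : M, τ x = x ↔ ∀ c ∈ Subgroup.zpowers g, c x = x := by
    intro x
    rw [hτ']
    constructor
    · intro h c hc
      have h1 : g ∈ MulAction.stabilizer Gal(M/F) x := Subtype.ext h
      exact (Subgroup.zpowers_le.2 h1) hc
    · intro h
      exact congrArg Subtype.val (h g (Subgroup.mem_zpowers g))
  refine ⟨τ, hfix, ?_⟩
  intro hp
  letI := incAlg (fixedIn_le M τ)
  have hp' : InertNagao M U (E.map (algebraMap K (fixedIn M τ))) := hp
  let e : fixedIn M τ ≃+* IntermediateField.fixedField (Subgroup.zpowers g) :=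
    { toFun := fun x => ⟨⟨x.1, fixedIn_le M τ x.2⟩, by
        rw [IntermediateField.mem_fixedField_iff]
        exact (hfix _).1 ((mem_fixedIn M τ x.1).1 x.2).2⟩
      invFun := fun x => ⟨x.1.1, (mem_fixedIn M τ x.1.1).2 ⟨x.1.2, (hfix _).2 (by
        rw [← IntermediateField.mem_fixedField_iff]
        exact x.2)⟩⟩
      left_inv := fun x => rfl
      right_inv := fun x => rfl
      map_mul' := fun x y => rfl
      map_add' := fun x y => rfl }
  have h1 := inertNagao_equiv e (RingEquiv.refl M) (fun x => rfl) U _ hp'
  rw [WeierstrassCurve.map_map] at h1 ⊢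
  exact h1

/-- The start of the tower. -/
theorem pair_start (U : Set ℂ) (E : WeierstrassCurve K) [E.IsElliptic]
    {F M : IntermediateField K (AlgebraicClosure K)} (hFM : F ≤ M) [FiniteDimensional K M]
    [IsGalois K M] (h : ∀ τ : Gal(AlgebraicClosure K/K), F ≤ fixedIn M τ →
      InertPair U E (fixedIn M τ) M (fixedIn_le M τ)) : Nagao U (E.map (algebraMap K F)) := by
  letI := incAlg hFM
  have tow := inc_tower' hFM
  have fin : FiniteDimensional F M := Module.Finite.of_restrictScalars_finite K F M
  have gal : IsGalois F M := IsGalois.tower_top_of_isGalois K F M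
  have cyc : IsCyclic Gal(F/F) := by
    have hs : Subsingleton Gal(F/F) := ⟨fun a b => by
      ext x
      exact congrArg Subtype.val ((a.commutes x).trans (b.commutes x).symm)⟩
    infer_instance
  refine nagao_of_inert U _ (inert_step (K := F) (N := F) (K' := M) U _ fun C hC _ => ?_)
  obtain ⟨τ, hτ, hp⟩ := pair_of_cyclic U E hFM C hC
  refine hp (h τ ?_)
  intro x hx
  rw [mem_fixedIn]
  refine ⟨hFM hx, ?_⟩
  exact (hτ ⟨x, hFM hx⟩).2 fun c _ => c.commutes (⟨x, hx⟩ : F)

/-- The step of the tower. -/
theorem pair_step (U : Set ℂ) (E : WeierstrassCurve K) [E.IsElliptic]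
    {N M : IntermediateField K (AlgebraicClosure K)} (hNM : N ≤ M) [FiniteDimensional K M]
    [IsGalois K M] [IsGalois K N] (σ : Gal(AlgebraicClosure K/K))
    (h : ∀ τ : Gal(AlgebraicClosure K/K), fixedIn M τ ⊓ N = fixedIn N σ →
      InertPair U E (fixedIn M τ) M (fixedIn_le M τ)) :
    InertPair U E (fixedIn N σ) N (fixedIn_le N σ) := by
  set F := fixedIn N σ with hF
  have hFN : F ≤ N := fixedIn_le N σ
  have hFM : F ≤ M := hFN.trans hNM
  letI := incAlg hFM
  letI := incAlg hFN
  letI := incAlg hNM
  have tow := inc_tower' hFM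
  have tow1 := inc_tower' hFN
  have tow2 := inc_tower' hNM
  have tow3 := inc_tower hFN hNM
  have finN : FiniteDimensional K N := FiniteDimensional.of_injective
    (IntermediateField.inclusion hNM).toLinearMap (IntermediateField.inclusion hNM).injective
  have fin : FiniteDimensional F M := Module.Finite.of_restrictScalars_finite K F M
  have finFN : FiniteDimensional F N := Module.Finite.of_restrictScalars_finite K F N
  have gal : IsGalois F M := IsGalois.tower_top_of_isGalois K F M
  have galN : IsGalois F N := IsGalois.tower_top_of_isGalois K F N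
  have norN : Normal K N := inferInstance
  -- the group is cyclic
  have hσ : ∀ x : N, ((AlgEquiv.restrictNormalHom N σ x : N) : AlgebraicClosure K) = σ x :=
    fun x => AlgEquiv.restrictNormalHom_apply N σ x
  let g : Gal(N/F) := AlgEquiv.ofRingEquiv (f := (AlgEquiv.restrictNormalHom N σ).toRingEquiv)
    (fun x => by
      apply Subtype.ext
      have h1 := hσ (algebraMap F N x)
      refine h1.trans ?_
      exact ((mem_fixedIn N σ x.1).1 x.2).2)
  have hg : ∀ x : N, ((g x : N) : AlgebraicClosure K) = σ x := hσ
  have htop : Subgroup.zpowers g = ⊤ := by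
    have h1 : IntermediateField.fixedField (Subgroup.zpowers g) = ⊥ := by
      rw [eq_bot_iff]
      intro x hx
      rw [IntermediateField.mem_fixedField_iff] at hx
      have h2 := hx g (Subgroup.mem_zpowers g)
      rw [IntermediateField.mem_bot]
      refine ⟨⟨x.1, (mem_fixedIn N σ x.1).2 ⟨x.2, ?_⟩⟩, rfl⟩
      rw [← hg, h2]
    have h2 := IntermediateField.fixingSubgroup_fixedField (Subgroup.zpowers g)
    rw [h1] at h2
    rw [← h2, IntermediateField.fixingSubgroup_bot]
  have cyc : IsCyclic Gal(N/F) := ⟨g, fun x => (show x ∈ Subgroup.zpowers g by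
    rw [htop]
    exact Subgroup.mem_top x)⟩
  change InertNagao N U (E.map (algebraMap K F))
  refine inert_step (K := F) (N := N) (K' := M) U _ fun C hC hCtop => ?_
  obtain ⟨τ, hτ, hp⟩ := pair_of_cyclic U E hFM C hC
  refine hp (h τ ?_)
  apply le_antisymm
  · intro x hx
    have hxM := ((mem_fixedIn M τ x).1 hx.1).1
    have hxτ := ((mem_fixedIn M τ x).1 hx.1).2
    have hxN : x ∈ N := hx.2
    have h1 := (hτ ⟨x, hxM⟩).1 hxτ
    have h2 : (⟨x, hxN⟩ : N) ∈ Set.range (algebraMap F N) := by
      rw [IsGalois.mem_range_algebraMap_iff_fixed]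
      intro f
      have h3 : f ∈ C.map (AlgEquiv.restrictNormalHom N : Gal(M/F) →* Gal(N/F)) := by
        rw [hCtop]
        exact Subgroup.mem_top f
      obtain ⟨c, hc, rfl⟩ := h3
      apply (algebraMap N M).injective
      have h4 := AlgEquiv.restrictNormal_commutes c N (⟨x, hxN⟩ : N)
      refine h4.trans ?_
      exact h1 c hc
    obtain ⟨z, hz⟩ := h2
    have h3 : (z : AlgebraicClosure K) = x := congrArg Subtype.val hz
    rw [← h3]
    exact z.2
  · intro x hx
    refine ⟨(mem_fixedIn M τ x).2 ⟨hFM hx, ?_⟩, hFN hx⟩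
    exact (hτ ⟨x, hFM hx⟩).2 fun c _ => c.commutes (⟨x, hx⟩ : F)

end

end Pool.Agent.MP_3d3918.H97
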