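import Pool.Agent.Lib.MP_3d3918_nt.H97.StepSum

/-!
# The formula for the inert points of `N` follows from the formulas for larger fields
-/

set_option autoImplicit false
set_option linter.unusedSectionVars false

open Filter Topology TensorProduct WeierstrassCurve

namespace Pool.Agent.MP_3d3918.H97

open Pool.Agent.MP_3d3918

section

variable {K N K' : Type} [Field K] [Field N] [Field K'] [Algebra K N] [Algebra K K'] [Algebra N K']
  [IsScalarTower K N K'] [FiniteDimensional K K'] [IsGalois K K'] [IsGalois K N]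
  [FiniteDimensional K N] {θ : K'} {η : N}

open Classical in
/-- The residues. -/
theorem mean_sum (E : WeierstrassCurve K)
    (hfin : Module.Finite ℚ (ℚ ⊗[ℤ] (E.baseChange K').toAffine.Point)) :
    (∑ C ∈ cycOnto (AlgEquiv.restrictNormalHom N : Gal(K'/K) →* Gal(N/K)),
      meanTrace K' (E.map (algebraMap K (IntermediateField.fixedField C))) * Nat.card C) =
      meanTrace N E * Nat.card Gal(K'/K) := by
  classical
  rw [← mean_tower E hfin]
  rw [Finset.sum_congr rfl (fun C _ => (mean_fixed E C).symm), Finset.sum_comm]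
  refine Finset.sum_congr rfl fun g _ => ?_
  have := sum_cycOnto (AlgEquiv.restrictNormalHom N : Gal(K'/K) →* Gal(N/K)) g (pointTrace K' E g)
  convert this

open Classical in
theorem point_finite {F L : Type} [Field F] [Field L] [Algebra F L] {E : WeierstrassCurve F}
    {r : ℕ} (h : mwRank (E.map (algebraMap F L)) = r) :
    Module.Finite ℚ (ℚ ⊗[ℤ] (E.baseChange L).toAffine.Point) := by
  classical
  apply finite_V
  rw [mwRank_eq inferInstance] at h
  exact lt_of_eq_of_lt h Cardinal.natCast_lt_aleph0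

/-- The rank over a smaller field. -/
theorem rank_le {F N L : Type} [Field F] [Field N] [Field L] [Algebra F N] [Algebra F L]
    [Algebra N L] [IsScalarTower F N L] (E : WeierstrassCurve F) {r : ℕ}
    (h : mwRank (E.map (algebraMap F L)) = r) :
    ∃ r' : ℕ, mwRank (E.map (algebraMap F N)) = r' := by
  classical
  rw [mwRank_eq inferInstance] at h ⊢
  let f : (E.baseChange N).toAffine.Point →ₗ[ℤ] (E.baseChange L).toAffine.Point :=
    (Affine.Point.map (W' := E) (IsScalarTower.toAlgHom F N L)).toIntLinearMap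
  have hf : Function.Injective f :=
    Affine.Point.map_injective (W' := E) (IsScalarTower.toAlgHom F N L)
  have h1 := LinearMap.rank_le_of_injective f hf
  have h2 : Module.rank ℤ (E.baseChange N).toAffine.Point < Cardinal.aleph0 :=
    lt_of_le_of_lt h1 (lt_of_eq_of_lt h Cardinal.natCast_lt_aleph0)
  obtain ⟨m, hm⟩ := Cardinal.lt_aleph0.1 h2
  exact ⟨m, hm⟩

/-- The formula for the inert points of `N` follows from the formulas for the larger field `K'` and
its subfields whose intersection with `N` is `K`. -/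
theorem inert_step [CharZero K] [CharZero K'] [IsCyclic Gal(N/K)] (U : Set ℂ)
    (E : WeierstrassCurve K) [E.IsElliptic]
    (h : ∀ C : Subgroup Gal(K'/K), IsCyclic C →
      C.map (AlgEquiv.restrictNormalHom N : Gal(K'/K) →* Gal(N/K)) = ⊤ →
      InertNagao K' U (E.map (algebraMap K (IntermediateField.fixedField C)))) :
    InertNagao N U E := by
  classical
  set π : Gal(K'/K) →* Gal(N/K) := AlgEquiv.restrictNormalHom N with hπ
  set T := cycOnto π with hT
  have hT' : ∀ C ∈ T, InertNagao K' U (E.map (algebraMap K (IntermediateField.fixedField C))) :=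
    fun C hC => h C ((mem_cycOnto π C).1 hC).1 ((mem_cycOnto π C).1 hC).2
  obtain ⟨θ, hθ⟩ := Field.exists_primitive_element K K'
  -- the rank
  obtain ⟨C₀, hC₀⟩ : ∃ C, C ∈ T := by
    obtain ⟨h₀, hh₀⟩ := IsCyclic.exists_generator (α := Gal(N/K))
    obtain ⟨g₀, hg₀⟩ := AlgEquiv.restrictNormalHom_surjective (K₁ := N) K' h₀
    refine ⟨Subgroup.zpowers g₀, (zpowers_mem π g₀).2 ?_⟩
    have h1 : π g₀ = h₀ := hg₀
    rw [h1, eq_top_iff]
    exact fun x _ => hh₀ x
  obtain ⟨r, hr⟩ := (hT' C₀ hC₀).1
  have hr' : mwRank (E.map (algebraMap K K')) = r := hr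
  have hfin := point_finite (E := E) hr'
  refine ⟨rank_le (N := N) (L := K') E hr', ?_⟩
  intro η hη
  have hprim : ∀ C : Subgroup Gal(K'/K),
      IntermediateField.adjoin (IntermediateField.fixedField C) {θ} = ⊤ := fun C =>
    IntermediateField.adjoin_eq_top_of_adjoin_eq_top K hθ
  -- the thresholds
  have h' : ∀ C : {C : Subgroup Gal(K'/K) // C ∈ T}, ∃ s : Finset
      (IntermediateField.fixedField C.1), ∀ R : Subring (IntermediateField.fixedField C.1), FG R →
        (s : Set (IntermediateField.fixedField C.1)) ⊆ R →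
        ∃ W : WeierstrassCurve R, W.map R.subtype =
          E.map (algebraMap K (IntermediateField.fixedField C.1)) ∧ IsUnit W.Δ ∧
          Good U (inertTerm θ R W)
            (meanTrace K' (E.map (algebraMap K (IntermediateField.fixedField C.1)))) := by
    intro C
    obtain ⟨R₀, ⟨s, hs⟩, hR₀⟩ := (hT' C.1 C.2).2 θ (hprim C.1)
    refine ⟨s, fun R hR hsR => hR₀ R hR ?_⟩
    rw [← hs, Subring.closure_le]
    exact hsR
  choose s hs using h'
  obtain ⟨T₁, hT₁⟩ := exists_large θ hθ
  obtain ⟨T₂, hT₂⟩ := exists_finset_set θ hθ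
    ((⋃ C : {C : Subgroup Gal(K'/K) // C ∈ T},
      ((fun x : IntermediateField.fixedField C.1 => (x : K')) '' (s C : Set _))) ∪
        {algebraMap N K' η})
    ((Set.finite_iUnion fun C => (Finset.finite_toSet _).image _).union (Set.finite_singleton _))
  obtain ⟨T₃, hT₃⟩ := exists_model E
  obtain ⟨T₄, hT₄⟩ := exists_large η hη
  refine ⟨Subring.closure ((T₁ ∪ T₂ ∪ T₃ ∪ T₄ : Finset K) : Set K), fg_closure _, ?_⟩
  intro R hR hle
  have hsub : ((T₁ ∪ T₂ ∪ T₃ ∪ T₄ : Finset K) : Set K) ⊆ R := fun x hx =>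
    hle (Subring.subset_closure hx)
  have hl : Large θ R := hT₁ R fun x hx => hsub (by
    simp only [Finset.coe_union, Set.mem_union]; tauto)
  have hgen := hT₂ R fun x hx => hsub (by
    simp only [Finset.coe_union, Set.mem_union]; tauto)
  obtain ⟨W, hW, hWu⟩ := hT₃ R fun x hx => hsub (by
    simp only [Finset.coe_union, Set.mem_union]; tauto)
  have hlη : Large η R := hT₄ R fun x hx => hsub (by
    simp only [Finset.coe_union, Set.mem_union]; tauto)
  have hmem : algebraMap N K' η ∈ ringOf θ R := hgen _ (Or.inr rfl)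
  -- the formulas
  have key : ∀ C ∈ T, Good U (inertTerm θ (ringC θ R C) (W.map (inclC θ R C)))
      (meanTrace K' (E.map (algebraMap K (IntermediateField.fixedField C)))) := by
    intro C hC
    obtain ⟨W', hW', -, hgood⟩ := hs ⟨C, hC⟩ (ringC θ R C) (fg_AR hR hl C _ (fixed_range C)) (by
      intro x hx
      change (x : K') ∈ BR θ R
      exact hgen _ (Or.inl (Set.mem_iUnion.2 ⟨⟨C, hC⟩, x, hx, rfl⟩)))
    have h1 : W' = W.map (inclC θ R C) := by
      apply model_unique
      rw [hW', WeierstrassCurve.map_map, subtype_incl, ← WeierstrassCurve.map_map, hW]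
    rw [h1] at hgood
    exact hgood
  refine ⟨W, hW, hWu, ?_⟩
  have hcomb := Good.combine T (fun C => (Nat.card C : ℂ) / (Nat.card Gal(K'/K) : ℂ)) _ _ key
  have hN : (Nat.card Gal(K'/K) : ℂ) ≠ 0 := by
    exact_mod_cast Nat.card_pos.ne'
  have hN' : (Nat.card Gal(K'/K) : ℚ) ≠ 0 := by
    exact_mod_cast Nat.card_pos.ne'
  have h1 : ∑ C ∈ T, (Nat.card C : ℂ) / (Nat.card Gal(K'/K) : ℂ) *
      ((meanTrace K' (E.map (algebraMap K (IntermediateField.fixedField C))) : ℚ) : ℂ) =
      ((meanTrace N E : ℚ) : ℂ) := by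
    have h2 := mean_sum (N := N) E hfin
    have h3 : meanTrace N E = (∑ C ∈ T,
        meanTrace K' (E.map (algebraMap K (IntermediateField.fixedField C))) * Nat.card C) /
          Nat.card Gal(K'/K) := by
      rw [eq_div_iff hN', ← h2]
    rw [h3]
    push_cast
    rw [Finset.sum_div]
    refine Finset.sum_congr rfl fun C _ => ?_
    ring
  have h2 : (fun (s : ℂ) (p : Nat.Primes) => ∑ C ∈ T, (Nat.card C : ℂ) /
      (Nat.card Gal(K'/K) : ℂ) * inertTerm θ (ringC θ R C) (W.map (inclC θ R C)) s p) =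
      inertTerm η R W := by
    funext s p
    have hp : Fact (p : ℕ).Prime := ⟨p.2⟩
    have h3 := inertSum_tower hR hl hθ hlη hη hmem p W
    have h4 : ∑ C ∈ T, (Nat.card C : ℂ) *
        (inertSum θ p (ringC θ R C) (W.map (inclC θ R C)) : ℂ) =
        (Nat.card Gal(K'/K) : ℂ) * (inertSum η p R W : ℂ) := by
      exact_mod_cast h3
    have h5 : ∀ C : Subgroup Gal(K'/K), dim (IntermediateField.fixedField C) = dim K := fun C =>
      dim_eq
    unfold inertTerm
    simp only [h5]
    have h6 : ∀ C ∈ T, (Nat.card C : ℂ) / (Nat.card Gal(K'/K) : ℂ) *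
        ((inertSum θ p (ringC θ R C) (W.map (inclC θ R C)) : ℂ) / ((p : ℕ) : ℂ) ^ (dim K) *
        (Real.log (p : ℕ) : ℂ) * ((p : ℕ) : ℂ) ^ (-s)) =
        ((Nat.card C : ℂ) * (inertSum θ p (ringC θ R C) (W.map (inclC θ R C)) : ℂ)) *
        ((Nat.card Gal(K'/K) : ℂ)⁻¹ / ((p : ℕ) : ℂ) ^ (dim K) *
        (Real.log (p : ℕ) : ℂ) * ((p : ℕ) : ℂ) ^ (-s)) := by
      intro C _
      ring
    rw [Finset.sum_congr rfl h6, ← Finset.sum_mul, h4]
    field_simp
  rw [h1, h2] at hcomb
  exact hcomb

end

end Pool.Agent.MP_3d3918.H97
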