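import Pool.Agent.Lib.MP_3d3918_nt.H97.Concrete
import Pool.Agent.Lib.MP_3d3918_nt.H97.Mean

/-!
# The number of the inert points in a tower of fields
-/

set_option autoImplicit false
set_option linter.unusedSectionVars false

namespace Pool.Agent.MP_3d3918.H97

open Pool.Agent.MP_3d3918

section group

variable {G G' : Type} [Group G] [Fintype G] [Group G'] (π : G →* G')

open Classical in
/-- The cyclic subgroups which are mapped onto `G'`. -/
noncomputable def cycOnto : Finset (Subgroup G) :=
  Finset.univ.filter fun C => IsCyclic C ∧ C.map π = ⊤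

theorem mem_cycOnto (C : Subgroup G) : C ∈ cycOnto π ↔ IsCyclic C ∧ C.map π = ⊤ := by
  simp [cycOnto]

theorem zpowers_mem (g : G) :
    Subgroup.zpowers g ∈ cycOnto π ↔ Subgroup.zpowers (π g) = ⊤ := by
  rw [mem_cycOnto, MonoidHom.map_zpowers]
  exact ⟨fun h => h.2, fun h => ⟨inferInstance, h⟩⟩

open Classical in
theorem sum_cycOnto {M : Type} [AddCommMonoid M] (g : G) (a : M) :
    (∑ C ∈ cycOnto π, if Subgroup.zpowers g = C then a else 0) =
      if Subgroup.zpowers (π g) = ⊤ then a else 0 := by
  rw [Finset.sum_ite_eq]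
  simp only [zpowers_mem]

open Classical in
theorem sum_card_conj (σ : G) :
    (∑ C ∈ cycOnto π, Nat.card {x : G // Subgroup.zpowers (x⁻¹ * σ * x) = C}) =
      if Subgroup.zpowers (π σ) = ⊤ then Nat.card G else 0 := by
  have h1 : ∀ C ∈ cycOnto π, Nat.card {x : G // Subgroup.zpowers (x⁻¹ * σ * x) = C} =
      ∑ x : G, if Subgroup.zpowers (x⁻¹ * σ * x) = C then 1 else 0 := by
    intro C _
    rw [Nat.card_eq_fintype_card, Fintype.card_subtype, Finset.card_filter]
  rw [Finset.sum_congr rfl h1, Finset.sum_comm]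
  have h2 : ∀ x : G, (∑ C ∈ cycOnto π, if Subgroup.zpowers (x⁻¹ * σ * x) = C then 1 else 0) =
      if Subgroup.zpowers (π σ) = ⊤ then 1 else 0 := by
    intro x
    rw [sum_cycOnto]
    have h3 : Subgroup.zpowers (π (x⁻¹ * σ * x)) = ⊤ ↔ Subgroup.zpowers (π σ) = ⊤ := by
      have h4 : ∀ a b : G', Subgroup.zpowers a = ⊤ → Subgroup.zpowers (b⁻¹ * a * b) = ⊤ := by
        intro a b ha
        rw [eq_top_iff]
        intro c _
        have h5 : b * c * b⁻¹ ∈ Subgroup.zpowers a := by
          rw [ha]
          exact Subgroup.mem_top _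
        obtain ⟨k, hk⟩ := Subgroup.mem_zpowers_iff.1 h5
        refine Subgroup.mem_zpowers_iff.2 ⟨k, ?_⟩
        have h6 : b⁻¹ * a * b = b⁻¹ * a * b⁻¹⁻¹ := by rw [inv_inv]
        rw [h6, conj_zpow, hk]
        group
      constructor
      · intro h
        have h5 := h4 _ (π x)⁻¹ h
        rw [map_mul, map_mul, map_inv] at h5
        have h6 : (π x)⁻¹⁻¹ * ((π x)⁻¹ * π σ * π x) * (π x)⁻¹ = π σ := by group
        rwa [h6] at h5
      · intro h
        rw [map_mul, map_mul, map_inv]
        exact h4 _ _ h
    simp only [h3]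
  rw [Finset.sum_congr rfl (fun x _ => h2 x), Finset.sum_const, Finset.card_univ,
    Nat.card_eq_fintype_card]
  split_ifs <;> simp

end group

section

variable {K N K' : Type} [Field K] [Field N] [Field K'] [Algebra K N] [Algebra K K'] [Algebra N K']
  [IsScalarTower K N K'] [FiniteDimensional K K'] [IsGalois K K'] [IsGalois K N]
  [FiniteDimensional K N] {θ : K'} {η : N}

theorem mem_of_gen {R : Subring K} (hmem : algebraMap N K' η ∈ ringOf θ R) :
    ringOf η R ≤ (ringOf θ R).comap (algebraMap N K') := by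
  unfold ringOf
  rw [Subring.closure_le]
  rintro _ (⟨r, hr, rfl⟩ | hx)
  · change algebraMap N K' (algebraMap K N r) ∈ ringOf θ R
    rw [← IsScalarTower.algebraMap_apply]
    exact alg_mem θ hr
  · rw [Set.mem_singleton_iff.1 hx]
    exact hmem

/-- The map between the rings. -/
def ringMap {R : Subring K} (hmem : algebraMap N K' η ∈ ringOf θ R) :
    ringOf η R →+* ringOf θ R :=
  ((algebraMap N K').comp (ringOf η R).subtype).codRestrict (ringOf θ R)
    (fun b => mem_of_gen hmem b.2)

variable {k : Type} [Field k] [IsAlgClosed k] {p : ℕ} [Fact p.Prime] {ι : ZMod p →+* k}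

/-- The inert points and Frobenius. -/
theorem inert_base {R : Subring K} (hR : Large θ R) (hRη : Large η R)
    (hη : IntermediateField.adjoin K {η} = ⊤) (hmem : algebraMap N K' η ∈ ringOf θ R)
    {y : R →+* ZMod p} {φ : ringOf θ R →+* k} {σ : Gal(K'/K)}
    (hf : letI := rAct hR; IsFrob (toRing θ R) ι y φ σ) :
    Inert η R y ↔ Subgroup.zpowers (AlgEquiv.restrictNormalHom N σ) = ⊤ := by
  let act := rAct hR
  let act' := rAct hRη
  have h1 : IsFrob (toRing η R) ι y (φ.comp (ringMap hmem)) (AlgEquiv.restrictNormalHom N σ) := by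
    constructor
    · intro r
      rw [← hf.above r]
      change φ (ringMap hmem (toRing η R r)) = φ (toRing θ R r)
      congr 1
      apply Subtype.ext
      exact (IsScalarTower.algebraMap_apply K N K' r.1).symm
    · intro b
      change φ (ringMap hmem (AlgEquiv.restrictNormalHom N σ • b)) = φ (ringMap hmem b) ^ p
      rw [← hf.frob]
      congr 1
      apply Subtype.ext
      exact AlgEquiv.restrictNormal_commutes σ N b.1
  have h2 := (etale_ring hRη hη).inert_iff h1 (Module.finrank K N)
  unfold Inert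
  rw [h2, ← IsGalois.card_aut_eq_finrank]
  constructor
  · intro h
    have h3 := (zpowers_eq_iff (C := (⊤ : Subgroup Gal(N/K)))
      (Subgroup.mem_top (AlgEquiv.restrictNormalHom N σ))).2 (by
        rw [h]
        exact (Subgroup.card_top).symm)
    exact h3
  · intro h
    have h3 := (zpowers_eq_iff (C := (⊤ : Subgroup Gal(N/K)))
      (Subgroup.mem_top (AlgEquiv.restrictNormalHom N σ))).1 h
    rw [h3]
    exact Subgroup.card_top

end

end Pool.Agent.MP_3d3918.H97
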