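import Pool.Agent.Lib.MP_3d3918_nt.H97.StepCount
import Pool.Agent.Lib.MP_3d3918_nt.Reduce

/-!
# The sums over the inert points in a tower of fields
-/

set_option autoImplicit false
set_option linter.unusedSectionVars false

open Filter Topology

namespace Pool.Agent.MP_3d3918.H97

open Pool.Agent.MP_3d3918

/-- The sum over the points of the ring above with a given property. -/
theorem sum_above {p : ℕ} {R A : Type} [CommRing R] [CommRing A] [Finite (R →+* ZMod p)]
    [Finite (A →+* ZMod p)] (i : R →+* A) (P : (A →+* ZMod p) → Prop) (W : WeierstrassCurve R) :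
    ∑ᶠ z : {z : A →+* ZMod p // P z}, trace p ((W.map i).map z.1) =
      ∑ᶠ y : R →+* ZMod p, (Nat.card {z : A →+* ZMod p // z.comp i = y ∧ P z} : ℤ) *
        trace p (W.map y) := by
  classical
  have := Fintype.ofFinite (R →+* ZMod p)
  have := Fintype.ofFinite (A →+* ZMod p)
  rw [finsum_eq_sum_of_fintype, finsum_eq_sum_of_fintype]
  have h0 : ∑ z : {z : A →+* ZMod p // P z}, trace p ((W.map i).map z.1) =
      ∑ z ∈ Finset.univ.filter P, trace p ((W.map i).map z) :=
    (Finset.sum_subtype (Finset.univ.filter P) (fun z => by simp)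
      (fun z => trace p ((W.map i).map z))).symm
  rw [h0, ← Finset.sum_fiberwise_of_maps_to (t := Finset.univ)
    (g := fun z : A →+* ZMod p => z.comp i) (fun _ _ => Finset.mem_univ _)]
  refine Finset.sum_congr rfl fun y _ => ?_
  rw [Nat.card_eq_fintype_card, Fintype.card_subtype, ← nsmul_eq_mul, ← Finset.sum_const]
  rw [Finset.filter_filter]
  refine Finset.sum_congr ?_ fun z hz => ?_
  · ext z
    simp only [Finset.mem_filter, Finset.mem_univ, true_and]
    exact and_comm
  · rw [Finset.mem_filter] at hz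
    rw [WeierstrassCurve.map_map, hz.2.1]

section

variable {K N K' : Type} [Field K] [Field N] [Field K'] [Algebra K N] [Algebra K K'] [Algebra N K']
  [IsScalarTower K N K'] [FiniteDimensional K K'] [IsGalois K K'] [IsGalois K N]
  [FiniteDimensional K N] {θ : K'} {η : N}

theorem fixed_range (C : Subgroup Gal(K'/K)) (x : K') : (∀ σ ∈ C, σ x = x) ↔
    x ∈ Set.range (IsScalarTower.toAlgHom K (IntermediateField.fixedField C) K') := by
  rw [← IntermediateField.mem_fixedField_iff]
  constructor
  · intro h
    exact ⟨⟨x, h⟩, rfl⟩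
  · rintro ⟨y, rfl⟩
    exact y.2

/-- The ring over the field of the elements fixed by `C`. -/
noncomputable abbrev ringC (θ : K') (R : Subring K) (C : Subgroup Gal(K'/K)) :
    Subring (IntermediateField.fixedField C) :=
  AR θ R (IsScalarTower.toAlgHom K (IntermediateField.fixedField C) K')

/-- The inclusion. -/
noncomputable abbrev inclC (θ : K') (R : Subring K) (C : Subgroup Gal(K'/K)) :
    R →+* ringC θ R C :=
  incl θ R (IsScalarTower.toAlgHom K (IntermediateField.fixedField C) K')

/-- The number of the inert points above a point. -/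
theorem count_tower {R : Subring K} (hR : Large θ R) (hθ : IntermediateField.adjoin K {θ} = ⊤)
    (hRη : Large η R) (hη : IntermediateField.adjoin K {η} = ⊤)
    (hmem : algebraMap N K' η ∈ ringOf θ R) (p : ℕ) [Fact p.Prime] (y : R →+* ZMod p) :
    (∑ C ∈ cycOnto (AlgEquiv.restrictNormalHom N : Gal(K'/K) →* Gal(N/K)),
      Nat.card {z : ringC θ R C →+* ZMod p // z.comp (inclC θ R C) = y ∧ Inert θ (ringC θ R C) z} *
        Nat.card C) = Nat.card {z : R →+* ZMod p // z = y ∧ Inert η R z} * Nat.card Gal(K'/K) := by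
  classical
  let act := rAct hR
  let k := AlgebraicClosure (ZMod p)
  obtain ⟨φ, σ, hf⟩ := (etale_ring hR hθ).exists_frob (k := k) (algebraMap (ZMod p) k) y
  have h1 : ∀ C ∈ cycOnto (AlgEquiv.restrictNormalHom N : Gal(K'/K) →* Gal(N/K)),
      Nat.card {z : ringC θ R C →+* ZMod p // z.comp (inclC θ R C) = y ∧
        Inert θ (ringC θ R C) z} * Nat.card C =
      Nat.card {x : Gal(K'/K) // Subgroup.zpowers (x⁻¹ * σ * x) = C} := by
    intro C _
    have hm := mid_AR (IsScalarTower.toAlgHom K (IntermediateField.fixedField C) K') hR C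
      (fixed_range C)
    rw [← hm.count_inert (etale_ring hR hθ) hf]
    congr 1
    refine Nat.card_congr (Equiv.subtypeEquivRight fun z => and_congr_right fun _ => ?_)
    rw [inert_iff_abs, IntermediateField.finrank_fixedField_eq_card]
  rw [Finset.sum_congr rfl h1, sum_card_conj]
  have h2 := inert_base hR hRη hη hmem hf
  by_cases hy : Inert η R y
  · rw [if_pos (h2.1 hy)]
    have h3 : Nat.card {z : R →+* ZMod p // z = y ∧ Inert η R z} = 1 := by
      rw [Nat.card_eq_one_iff_unique]
      exact ⟨⟨fun a b => Subtype.ext (a.2.1.trans b.2.1.symm)⟩, ⟨⟨y, rfl, hy⟩⟩⟩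
    rw [h3, one_mul]
  · rw [if_neg (fun h => hy (h2.2 h))]
    have h3 : Nat.card {z : R →+* ZMod p // z = y ∧ Inert η R z} = 0 := by
      rw [Nat.card_eq_zero]
      left
      exact ⟨fun a => hy (a.2.1 ▸ a.2.2)⟩
    rw [h3, zero_mul]

/-- The relation between the sums over the inert points. -/
theorem inertSum_tower [CharZero K] {R : Subring K} (hfg : FG R) (hR : Large θ R)
    (hθ : IntermediateField.adjoin K {θ} = ⊤)
    (hRη : Large η R) (hη : IntermediateField.adjoin K {η} = ⊤)
    (hmem : algebraMap N K' η ∈ ringOf θ R) (p : ℕ) [Fact p.Prime] (W : WeierstrassCurve R) :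
    (∑ C ∈ cycOnto (AlgEquiv.restrictNormalHom N : Gal(K'/K) →* Gal(N/K)),
      (Nat.card C : ℤ) * inertSum θ p (ringC θ R C) (W.map (inclC θ R C))) =
      Nat.card Gal(K'/K) * inertSum η p R W := by
  classical
  have fin1 := finite_hom hfg p
  have fin2 : ∀ C : Subgroup Gal(K'/K), Finite (ringC θ R C →+* ZMod p) := fun C =>
    finite_hom (fg_AR hfg hR C _ (fixed_range C)) p
  have := Fintype.ofFinite (R →+* ZMod p)
  have h0 : inertSum η p R W = ∑ y : R →+* ZMod p,
      (Nat.card {z : R →+* ZMod p // z = y ∧ Inert η R z} : ℤ) * trace p (W.map y) := by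
    have h1 := sum_above (p := p) (RingHom.id R) (fun z => Inert η R z) W
    rw [W.map_id, finsum_eq_sum_of_fintype (α := R →+* ZMod p)] at h1
    exact h1
  have h1 : ∀ C ∈ cycOnto (AlgEquiv.restrictNormalHom N : Gal(K'/K) →* Gal(N/K)),
      (Nat.card C : ℤ) * inertSum θ p (ringC θ R C) (W.map (inclC θ R C)) =
      ∑ y : R →+* ZMod p, ((Nat.card {z : ringC θ R C →+* ZMod p // z.comp (inclC θ R C) = y ∧
        Inert θ (ringC θ R C) z} * Nat.card C : ℕ) : ℤ) * trace p (W.map y) := by
    intro C _
    have := fin2 C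
    have h2 := sum_above (p := p) (inclC θ R C) (fun z => Inert θ (ringC θ R C) z) W
    rw [finsum_eq_sum_of_fintype (α := R →+* ZMod p)] at h2
    have h3 : inertSum θ p (ringC θ R C) (W.map (inclC θ R C)) = _ := h2
    rw [h3, Finset.mul_sum]
    refine Finset.sum_congr rfl fun y _ => ?_
    push_cast
    ring
  rw [Finset.sum_congr rfl h1, Finset.sum_comm, h0, Finset.mul_sum]
  refine Finset.sum_congr rfl fun y _ => ?_
  rw [← Finset.sum_mul, ← Nat.cast_sum, count_tower hR hθ hRη hη hmem p y]
  push_cast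
  ring

end

end Pool.Agent.MP_3d3918.H97
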