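import Pool.Agent.Lib.MP_3d3918_nt.Count

/-!
# Frobenius and the homomorphisms above a point
-/

set_option autoImplicit false
set_option linter.unusedSectionVars false

open Polynomial

namespace Pool.Agent.MP_3d3918.H97

open Pool.Agent.MP_3d3918

section

variable {R B G k : Type} [CommRing R] [CommRing B] [Group G] [Finite G] [MulSemiringAction G B]
  [Field k] {p : ℕ}

/-- `φ` lies above `y` and `σ` is its Frobenius. -/
structure IsFrob (i : R →+* B) (ι : ZMod p →+* k) (y : R →+* ZMod p) (φ : B →+* k) (σ : G) :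
    Prop where
  above : ∀ r, φ (i r) = ι (y r)
  frob : ∀ b, φ (σ • b) = φ b ^ p

/-- The standing hypotheses: `B` is a finite étale Galois algebra over `R`, generated by `θ`. -/
structure Etale (i : R →+* B) (θ : B) (G : Type) [Group G] [MulSemiringAction G B] : Prop where
  inj : Function.Injective i
  inv : ∀ b, (∀ g : G, g • b = b) ↔ b ∈ i.range
  gen : Subring.closure (Set.range i ∪ {θ}) = ⊤
  unit : ∀ g h : G, g ≠ h → IsUnit (g • θ - h • θ)

variable {i : R →+* B} {θ : B} {ι : ZMod p →+* k} {y : R →+* ZMod p}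

theorem Etale.smul_i (h : Etale i θ G) (g : G) (r : R) : g • i r = i r :=
  (h.inv _).2 ⟨r, rfl⟩ g

theorem Etale.hom_ext (h : Etale i θ G) {k : Type} [Field k] {φ ψ : B →+* k}
    (h1 : ∀ r, φ (i r) = ψ (i r)) (h2 : φ θ = ψ θ) : φ = ψ := by
  apply RingHom.eq_of_eqOn_set_dense h.gen
  rintro b (⟨r, rfl⟩ | hb)
  · exact h1 r
  · rw [Set.mem_singleton_iff.1 hb]
    exact h2

theorem Etale.smul_injective (h : Etale i θ G) {k : Type} [Field k] (φ : B →+* k) {g g' : G}
    (hg : φ (g • θ) = φ (g' • θ)) : g = g' := by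
  by_contra hne
  have h1 := (h.unit g g' hne).map φ
  rw [map_sub, hg, sub_self] at h1
  exact not_isUnit_zero h1

/-- All homomorphisms above `y` are conjugate. -/
theorem Etale.exists_smul (h : Etale i θ G) {φ φ' : B →+* k}
    (h1 : ∀ r, φ (i r) = ι (y r)) (h2 : ∀ r, φ' (i r) = ι (y r)) :
    ∃ g : G, ∀ b, φ' b = φ (g • b) := by
  obtain ⟨g, -, hg⟩ := exists_smul_of_agree (⊤ : Subgroup G) φ φ' (by
    intro b hb
    obtain ⟨r, rfl⟩ := (h.inv b).1 (fun g => hb g (Subgroup.mem_top g))
    rw [h1, h2]) θ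
  refine ⟨g, fun b => ?_⟩
  have h3 : φ' = φ.comp (MulSemiringAction.toRingHom G B g) := by
    apply h.hom_ext
    · intro r
      rw [h2, RingHom.comp_apply]
      change _ = φ (g • i r)
      rw [h.smul_i, h1]
    · exact hg
  rw [h3]
  rfl

/-- The existence of Frobenius. -/
theorem Etale.exists_frob (h : Etale i θ G) [IsAlgClosed k] [Fact p.Prime] (ι : ZMod p →+* k)
    (y : R →+* ZMod p) : ∃ (φ : B →+* k) (σ : G), IsFrob i ι y φ σ := by
  classical
  have hchar : CharP k p := charP_of_injective_ringHom ι.injective p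
  obtain ⟨φ, hφ⟩ : ∃ φ : B →+* k, ∀ r, φ (i r) = ι (y r) := by
    let _ : Algebra R B := i.toAlgebra
    have hinv : Algebra.IsInvariant R B G := ⟨fun b hb => (h.inv b).1 hb⟩
    have hsm : SMulCommClass G R B := ⟨fun g r b => by
      rw [Algebra.smul_def, Algebra.smul_def, smul_mul']
      congr 1
      exact h.smul_i g r⟩
    have hint : Algebra.IsIntegral R B := Algebra.IsInvariant.isIntegral R B G
    obtain ⟨φ, hφ⟩ := exists_extension h.inj (ι.comp y)
    exact ⟨φ, fun r => congrArg (fun f => f r) hφ⟩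
  let φ₁ : B →+* k := (frobenius k p).comp φ
  obtain ⟨σ, hσ⟩ := h.exists_smul (ι := ι) (y := y) (φ := φ) (φ' := φ₁) hφ (by
    intro r
    change (φ (i r)) ^ p = _
    rw [hφ, comp_pow])
  exact ⟨φ, σ, hφ, fun b => (hσ b).symm⟩

/-- Frobenius of a conjugate. -/
theorem IsFrob.conj {φ : B →+* k} {σ : G} (h : IsFrob i ι y φ σ) (g : G)
    (hg : ∀ r, g • i r = i r) :
    IsFrob i ι y (φ.comp (MulSemiringAction.toRingHom G B g)) (g⁻¹ * σ * g) := by
  constructor
  · intro r
    change φ (g • i r) = _
    rw [hg, h.above]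
  · intro b
    change φ (g • ((g⁻¹ * σ * g) • b)) = φ (g • b) ^ p
    rw [smul_smul, ← h.frob, smul_smul]
    congr 2
    group

theorem IsFrob.pow {φ : B →+* k} {σ : G} (h : IsFrob i ι y φ σ) (n : ℕ) (b : B) :
    φ (σ ^ n • b) = φ b ^ (p ^ n) := by
  induction n generalizing b with
  | zero => simp
  | succ n ih =>
    rw [pow_succ', mul_smul, h.frob, ih, ← pow_mul, ← pow_succ]

/-- The number of the values. -/
theorem Etale.card_range (h : Etale i θ G) [Fact p.Prime] {φ : B →+* k} {σ : G}
    (hf : IsFrob i ι y φ σ) : Nat.card φ.range = p ^ orderOf σ := by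
  classical
  have hchar : CharP k p := charP_of_injective_ringHom ι.injective p
  set m := orderOf σ with hm
  have hm0 : 0 < m := orderOf_pos σ
  have hp1 : 1 < p := (Fact.out : p.Prime).one_lt
  have hpm : 1 < p ^ m := Nat.one_lt_pow hm0.ne' hp1
  -- all values are roots
  have hroot : ∀ x ∈ φ.range, x ^ p ^ m = x := by
    rintro _ ⟨b, rfl⟩
    rw [← hf.pow m b, hm, pow_orderOf_eq_one, one_smul]
  -- finite
  have hfin : Finite φ.range := by
    have h1 : (φ.range : Set k) ⊆ ((X ^ p ^ m - X : k[X]).roots.toFinset : Set k) := by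
      intro x hx
      rw [Finset.mem_coe, Multiset.mem_toFinset, mem_roots (FiniteField.X_pow_card_sub_X_ne_zero k hpm),
        IsRoot, eval_sub, eval_pow, eval_X, hroot x hx, sub_self]
    exact Set.Finite.subset (Finset.finite_toSet _) h1
  have := Fintype.ofFinite φ.range
  let kf : Field φ.range := Fintype.fieldOfDomain φ.range
  have hcharr : CharP φ.range p := by
    exact (RingHom.charP_iff φ.range.subtype Subtype.coe_injective p).2 hchar
  obtain ⟨n, hp, hn⟩ := FiniteField.card φ.range p
  rw [Nat.card_eq_fintype_card, hn]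
  congr 1
  apply le_antisymm
  · -- card ≤ p ^ m
    have h3 : Fintype.card φ.range ≤ p ^ m := by
      have h4 : Fintype.card φ.range ≤ (X ^ p ^ m - X : k[X]).roots.toFinset.card := by
        rw [← Fintype.card_coe]
        refine Fintype.card_le_of_injective (fun x => ⟨x.1, ?_⟩) ?_
        · rw [Multiset.mem_toFinset, mem_roots (FiniteField.X_pow_card_sub_X_ne_zero k hpm),
            IsRoot, eval_sub, eval_pow, eval_X, hroot x.1 x.2, sub_self]
        · intro a b hab
          exact Subtype.ext (congrArg (fun t => (t.1 : k)) hab)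
      refine h4.trans ((Multiset.toFinset_card_le _).trans ((card_roots' _).trans ?_))
      rw [FiniteField.X_pow_card_sub_X_natDegree_eq k hpm]
    rw [hn] at h3
    exact (Nat.pow_le_pow_iff_right hp1).1 h3
  · -- m ∣ n
    have h5 : ∀ x : φ.range, x ^ p ^ (n : ℕ) = x := by
      intro x
      rw [← hn]
      exact FiniteField.pow_card x
    have h6 : σ ^ (n : ℕ) = 1 := by
      apply h.smul_injective φ
      rw [hf.pow, one_smul]
      have h7 := congrArg Subtype.val (h5 ⟨φ θ, θ, rfl⟩)
      exact h7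
    exact orderOf_le_of_pow_eq_one n.pos h6

end

end Pool.Agent.MP_3d3918.H97
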