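import Pool.Agent.Lib.MP_3d3918_nt.H97.Defs
import Pool.Agent.Lib.MP_3d3918_nt.Points

/-!
# Traces on the groups of points
-/

set_option autoImplicit false
set_option linter.unusedSectionVars false

open TensorProduct WeierstrassCurve WeierstrassCurve.Affine

namespace Pool.Agent.MP_3d3918.H97

open Pool.Agent.MP_3d3918

/-- The trace on the rational vector space. -/
noncomputable def tr {A : Type} [AddCommGroup A] (a : A →+ A) : ℚ :=
  LinearMap.trace ℚ (ℚ ⊗[ℤ] A) (LinearMap.baseChange ℚ a.toIntLinearMap)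

theorem tr_conj {A B : Type} [AddCommGroup A] [AddCommGroup B] (ε : A ≃+ B) (a : A →+ A)
    (b : B →+ B) (h : ∀ x, ε (a x) = b (ε x)) : tr a = tr b := by
  unfold tr
  rw [← LinearMap.trace_conj' _ (LinearEquiv.baseChange ℤ ℚ A B ε.toIntLinearEquiv)]
  congr 1
  apply ext_V
  intro x
  obtain ⟨x, rfl⟩ := ε.surjective x
  rw [LinearEquiv.conj_apply_apply]
  have h1 : (LinearEquiv.baseChange ℤ ℚ A B ε.toIntLinearEquiv).symm (toV B (ε x)) = toV A x := by
    rw [LinearEquiv.symm_apply_eq]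
    change (1 : ℚ) ⊗ₜ[ℤ] (ε x) = (1 : ℚ) ⊗ₜ[ℤ] (ε x)
    rfl
  rw [h1]
  change (1 : ℚ) ⊗ₜ[ℤ] (ε (a x)) = (1 : ℚ) ⊗ₜ[ℤ] (b (ε x))
  rw [h]

theorem chi_eq {A G : Type} [AddCommGroup A] [Group G] [DistribMulAction G A] (g : G) :
    chi A g = tr (DistribSMul.toAddMonoidHom A g) := rfl

theorem ext_W {A B : Type} [AddCommGroup A] [AddCommGroup B]
    {f f' : ℚ ⊗[ℤ] A →ₗ[ℚ] ℚ ⊗[ℤ] B} (h : ∀ a : A, f (toV A a) = f' (toV A a)) : f = f' := by
  apply TensorProduct.AlgebraTensorModule.curry_injective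
  ext a
  exact h a

/-- The traces of the elements of a coset. -/
theorem coset_trace {A B G : Type} [AddCommGroup A] [AddCommGroup B] [Group G]
    [DistribMulAction G A] (Γ : Subgroup G) [Fintype Γ] (ι : B →+ A) (hι : Function.Injective ι)
    (hr : ∀ a, (∀ γ ∈ Γ, γ • a = a) ↔ a ∈ Set.range ι) (g : G) (b : B →+ B)
    (hb : ∀ x, ι (b x) = g • ι x) (hfin : Module.Finite ℚ (ℚ ⊗[ℤ] A)) :
    ∑ γ : Γ, chi A (g * γ) = Fintype.card Γ * tr b := by
  classical
  have h0 : (Fintype.card Γ : ℚ) ≠ 0 := by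
    exact_mod_cast Fintype.card_ne_zero
  set I : ℚ ⊗[ℤ] B →ₗ[ℚ] ℚ ⊗[ℤ] A := LinearMap.baseChange ℚ ι.toIntLinearMap with hI
  have hIinj : Function.Injective I :=
    Module.Flat.lTensor_preserves_injective_linearMap (M := ℚ) ι.toIntLinearMap hι
  have hItoV : ∀ x, I (toV B x) = toV A (ι x) := fun x => rfl
  obtain ⟨Q₀, hQ₀⟩ := LinearMap.exists_leftInverse_of_injective I (LinearMap.ker_eq_bot.2 hIinj)
  have hQ₀' : ∀ w, Q₀ (I w) = w := fun w => congrArg (fun f => f w) hQ₀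
  set P := proj A Γ with hP
  -- the image of the projection
  have hPr : ∀ v, ∃ w, I w = P v := by
    intro v
    obtain ⟨⟨a, s⟩, hs⟩ := IsLocalizedModule.surj (nonZeroDivisors ℤ) (toV A) v
    have hs' : ((s : ℤ) : ℚ) • v = toV A a := by
      rw [Int.cast_smul_eq_zsmul]
      exact hs
    have hs0 : ((s : ℤ) : ℚ) ≠ 0 := by exact_mod_cast nonZeroDivisors.ne_zero s.2
    obtain ⟨x, hx⟩ := (hr (∑ h : Γ, h.1 • a)).1 (by
      intro h hh
      rw [Finset.smul_sum]
      exact Fintype.sum_bijective (fun k : Γ => (⟨h, hh⟩ : Γ) * k) (Group.mulLeft_bijective _) _ _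
        (fun k => by rw [smul_smul]; rfl))
    refine ⟨(((s : ℤ) : ℚ) * Fintype.card Γ)⁻¹ • toV B x, ?_⟩
    rw [map_smul, hItoV, hx, ← proj_toV, ← hs', map_smul, smul_smul, smul_smul]
    have h2 : (((s : ℤ) : ℚ) * (Fintype.card Γ : ℚ))⁻¹ * ((Fintype.card Γ : ℚ) * ((s : ℤ) : ℚ)) = 1 := by
      rw [mul_comm (Fintype.card Γ : ℚ)]
      exact inv_mul_cancel₀ (mul_ne_zero hs0 h0)
    rw [mul_assoc, h2, one_smul]
  have hPI : ∀ w, P (I w) = I w := by
    intro w
    have h1 : P.comp I = I := by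
      apply ext_W
      intro x
      change P (I (toV B x)) = I (toV B x)
      rw [hItoV]
      have h2 := proj_toV (A := A) Γ (ι x)
      have h3 : ∑ h : Γ, h.1 • ι x = (Fintype.card Γ) • ι x := by
        rw [Finset.sum_congr rfl (fun h _ => (hr (ι x)).2 ⟨x, rfl⟩ h.1 h.2), Finset.sum_const,
          Finset.card_univ]
      rw [h3, map_nsmul, ← Nat.cast_smul_eq_nsmul ℚ] at h2
      exact smul_right_injective _ h0 h2
    exact congrArg (fun f => f w) h1
  have hIQ : ∀ v, I (Q₀ (P v)) = P v := by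
    intro v
    obtain ⟨w, hw⟩ := hPr v
    rw [← hw, hQ₀']
  set T : ℚ ⊗[ℤ] B →ₗ[ℚ] ℚ ⊗[ℤ] B := LinearMap.baseChange ℚ b.toIntLinearMap with hT
  have hbI : ∀ w, bact g (I w) = I (T w) := by
    intro w
    have h1 : (bact g).comp I = I.comp T := by
      apply ext_W
      intro x
      change bact g (I (toV B x)) = I (T (toV B x))
      have h2 : T (toV B x) = toV B (b x) := rfl
      rw [hItoV, h2, hItoV, bact_toV, hb]
    exact congrArg (fun f => f w) h1
  have h1 : (bact g : ℚ ⊗[ℤ] A →ₗ[ℚ] ℚ ⊗[ℤ] A).comp P = (I.comp T).comp (Q₀.comp P) := by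
    apply LinearMap.ext
    intro v
    change bact g (P v) = I (T (Q₀ (P v)))
    rw [← hbI, hIQ]
  have h2 : T = (Q₀.comp P).comp (I.comp T) := by
    apply LinearMap.ext
    intro w
    change T w = Q₀ (P (I (T w)))
    rw [hPI, hQ₀']
  have h3 : LinearMap.trace ℚ (ℚ ⊗[ℤ] A) ((bact g : ℚ ⊗[ℤ] A →ₗ[ℚ] ℚ ⊗[ℤ] A).comp P) = tr b := by
    have fB : Module.Finite ℚ (ℚ ⊗[ℤ] B) := Module.Finite.of_injective I hIinj
    rw [h1, LinearMap.trace_comp_comm', ← h2]
    rfl
  rw [← h3, hP]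
  unfold proj chi
  rw [← Module.End.mul_eq_comp, mul_smul_comm, map_smul, smul_eq_mul, mul_inv_cancel_left₀ h0,
    Finset.mul_sum, map_sum]
  exact Finset.sum_congr rfl fun γ _ => by rw [bact_mul]

section

variable {F N F₁ N₁ : Type} [Field F] [Field N] [Field F₁] [Field N₁] [Algebra F N]
  [Algebra F₁ N₁]

omit [Algebra F N] in
theorem some_congr {V : WeierstrassCurve N} {x x' y y' : N} (h : V.toAffine.Nonsingular x y)
    (h' : V.toAffine.Nonsingular x' y') (hx : x = x') (hy : y = y') :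
    (Point.some x y h : V.toAffine.Point) = Point.some x' y' h' := by
  subst hx
  subst hy
  rfl

/-- Change of the fields. -/
theorem pointTrace_equiv (e : F →+* F₁) (e' : N ≃+* N₁)
    (h : ∀ x, e' (algebraMap F N x) = algebraMap F₁ N₁ (e x)) (E : WeierstrassCurve F)
    (g : Gal(N/F)) (g₁ : Gal(N₁/F₁)) (hg : ∀ x, e' (g x) = g₁ (e' x)) :
    pointTrace N E g = pointTrace N₁ (E.map e) g₁ := by
  classical
  let _ : Algebra F N₁ := ((algebraMap F₁ N₁).comp e).toAlgebra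
  let φ : N ≃ₐ[F] N₁ := AlgEquiv.ofRingEquiv (f := e') h
  let A := (E.baseChange N).toAffine.Point
  let B := ((E.map e).baseChange N₁).toAffine.Point
  let f : A →+ B := Point.map (W' := E) (F := N) (K := N₁) (φ : N →ₐ[F] N₁)
  have hf : Function.Bijective f := by
    constructor
    · exact Point.map_injective (W' := E) (φ : N →ₐ[F] N₁)
    · rintro (_ | ⟨x, y, hn⟩)
      · exact ⟨0, rfl⟩
      · have hn' : (E.baseChange N₁).toAffine.Nonsingular (φ (φ.symm x)) (φ (φ.symm y)) := by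
          rw [φ.apply_symm_apply, φ.apply_symm_apply]
          exact hn
        refine ⟨Point.some (φ.symm x) (φ.symm y)
          ((E.toAffine.baseChange_nonsingular (φ : N →ₐ[F] N₁).injective ..).1 hn'), ?_⟩
        change Point.map (W' := E) (F := N) (K := N₁) (φ : N →ₐ[F] N₁) _ = _
        rw [Point.map_some]
        exact some_congr _ _ (φ.apply_symm_apply x) (φ.apply_symm_apply y)
  refine tr_conj (A := A) (B := B) (AddEquiv.ofBijective f hf)
    (Point.map (W' := E) (F := N) (K := N) (g : N →ₐ[F] N))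
    (Point.map (W' := E.map e) (F := N₁) (K := N₁) (g₁ : N₁ →ₐ[F₁] N₁)) ?_
  rintro (_ | ⟨x, y, hn⟩)
  · rfl
  · change Point.map (W' := E) (F := N) (K := N₁) (φ : N →ₐ[F] N₁)
      (Point.map (W' := E) (F := N) (K := N) (g : N →ₐ[F] N) (Point.some x y hn)) =
      Point.map (W' := E.map e) (F := N₁) (K := N₁) (g₁ : N₁ →ₐ[F₁] N₁)
        (Point.map (W' := E) (F := N) (K := N₁) (φ : N →ₐ[F] N₁) (Point.some x y hn))
    rw [Point.map_some, Point.map_some, Point.map_some]
    refine Eq.trans ?_ (Point.map_some (W' := E.map e) (F := N₁) (K := N₁)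
      (g₁ : N₁ →ₐ[F₁] N₁) _).symm
    exact some_congr _ _ (hg x) (hg y)

end

end Pool.Agent.MP_3d3918.H97
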