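import Pool.Agent.Lib.MP_3d3918_nt.H97.Pair

/-!
# From the inert points to all points
-/

set_option autoImplicit false
set_option linter.unusedSectionVars false

open Filter Topology TensorProduct WeierstrassCurve

namespace Pool.Agent.MP_3d3918.H97

open Pool.Agent.MP_3d3918

section

variable {K : Type} [Field K] [CharZero K]

theorem closed_fixedIn (N F : IntermediateField K (AlgebraicClosure K)) [FiniteDimensional K N]
    [IsGalois K N] : IsClosed {σ : Gal(AlgebraicClosure K/K) | fixedIn N σ = F} := by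
  let r : Gal(AlgebraicClosure K/K) →* Gal(N/K) := AlgEquiv.restrictNormalHom N
  have hr : ∀ (τ : Gal(AlgebraicClosure K/K)) (x : N),
      ((r τ x : N) : AlgebraicClosure K) = τ x := fun τ x =>
    AlgEquiv.restrictNormalHom_apply N τ x
  have hc : Continuous r := InfiniteGalois.restrictNormalHom_continuous N
  have hd : IsClosed {g : Gal(N/K) | ∀ x, x ∈ F ↔ ∃ h : x ∈ N, g ⟨x, h⟩ = ⟨x, h⟩} :=
    isClosed_discrete _
  convert hd.preimage hc using 1
  ext σ
  simp only [Set.mem_setOf_eq, Set.mem_preimage]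
  constructor
  · rintro rfl x
    rw [mem_fixedIn]
    constructor
    · rintro ⟨h1, h2⟩
      exact ⟨h1, Subtype.ext ((hr σ ⟨x, h1⟩).trans h2)⟩
    · rintro ⟨h1, h2⟩
      exact ⟨h1, (hr σ ⟨x, h1⟩).symm.trans (congrArg Subtype.val h2)⟩
  · intro h
    ext x
    rw [mem_fixedIn, h]
    constructor
    · rintro ⟨h1, h2⟩
      exact ⟨h1, Subtype.ext ((hr σ ⟨x, h1⟩).trans h2)⟩
    · rintro ⟨h1, h2⟩
      exact ⟨h1, (hr σ ⟨x, h1⟩).symm.trans (congrArg Subtype.val h2)⟩

theorem fixedIn_inf {N M : IntermediateField K (AlgebraicClosure K)} (h : N ≤ M)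
    (σ : Gal(AlgebraicClosure K/K)) : fixedIn M σ ⊓ N = fixedIn N σ := by
  ext x
  rw [IntermediateField.mem_inf, mem_fixedIn, mem_fixedIn]
  exact ⟨fun hx => ⟨hx.2, hx.1.2⟩, fun hx => ⟨⟨h hx.1, hx.2⟩, hx.1⟩⟩

/-- The formula for all finite extensions follows from the formulas for the inert points: if it
fails, then there is an automorphism such that all these formulas fail from some index on. -/
theorem exists_bad (U : Set ℂ) (E : WeierstrassCurve K) [E.IsElliptic]
    (N : ℕ → IntermediateField K (AlgebraicClosure K)) (hmono : Monotone N)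
    (hfin : ∀ i, FiniteDimensional K (N i)) (hgal : ∀ i, IsGalois K (N i))
    (i₀ : ℕ) (τ₀ : Gal(AlgebraicClosure K/K))
    (hbad : ¬ InertPair U E (fixedIn (N i₀) τ₀) (N i₀) (fixedIn_le (N i₀) τ₀)) :
    ∃ σ : Gal(AlgebraicClosure K/K), fixedIn (N i₀) σ = fixedIn (N i₀) τ₀ ∧
      ∀ i, i₀ ≤ i → ¬ InertPair U E (fixedIn (N i) σ) (N i) (fixedIn_le (N i) σ) := by
  have hstep : ∀ (i : ℕ) (τ : Gal(AlgebraicClosure K/K)),
      ¬ InertPair U E (fixedIn (N i) τ) (N i) (fixedIn_le (N i) τ) →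
      ∃ τ' : Gal(AlgebraicClosure K/K), fixedIn (N (i + 1)) τ' ⊓ N i = fixedIn (N i) τ ∧
        ¬ InertPair U E (fixedIn (N (i + 1)) τ') (N (i + 1)) (fixedIn_le (N (i + 1)) τ') := by
    intro i τ h
    by_contra hcon
    push Not at hcon
    have := hfin (i + 1)
    have := hgal (i + 1)
    have := hgal i
    exact h (pair_step U E (hmono (Nat.le_succ i)) τ hcon)
  choose! f hf1 hf2 using hstep
  let s : ℕ → Gal(AlgebraicClosure K/K) := fun j =>
    Nat.rec (motive := fun _ => Gal(AlgebraicClosure K/K)) τ₀ (fun j τ => f (i₀ + j) τ) j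
  have hs : ∀ j, s (j + 1) = f (i₀ + j) (s j) := fun j => rfl
  have hsbad : ∀ j, ¬ InertPair U E (fixedIn (N (i₀ + j)) (s j)) (N (i₀ + j))
      (fixedIn_le (N (i₀ + j)) (s j)) := by
    intro j
    induction j with
    | zero => exact hbad
    | succ j ih => exact hf2 (i₀ + j) (s j) ih
  have hsinf : ∀ j, fixedIn (N (i₀ + (j + 1))) (s (j + 1)) ⊓ N (i₀ + j) =
      fixedIn (N (i₀ + j)) (s j) := fun j => hf1 (i₀ + j) (s j) (hsbad j)
  obtain ⟨σ, hσ⟩ := IsCompact.nonempty_iInter_of_sequence_nonempty_isCompact_isClosed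
    (fun j => {σ : Gal(AlgebraicClosure K/K) |
      fixedIn (N (i₀ + j)) σ = fixedIn (N (i₀ + j)) (s j)})
    (fun j σ hσ => by
      have h1 : fixedIn (N (i₀ + (j + 1))) σ = fixedIn (N (i₀ + (j + 1))) (s (j + 1)) := hσ
      change fixedIn (N (i₀ + j)) σ = fixedIn (N (i₀ + j)) (s j)
      rw [← hsinf, ← h1, fixedIn_inf (hmono (by omega))])
    (fun j => ⟨s j, rfl⟩)
    (by
      have := hfin (i₀ + 0)
      have := hgal (i₀ + 0)
      exact (closed_fixedIn (N (i₀ + 0)) _).isCompact)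
    (fun j => by
      have := hfin (i₀ + j)
      have := hgal (i₀ + j)
      exact closed_fixedIn (N (i₀ + j)) _)
  rw [Set.mem_iInter] at hσ
  refine ⟨σ, hσ 0, fun i hi => ?_⟩
  obtain ⟨j, rfl⟩ := Nat.exists_eq_add_of_le hi
  have h1 : fixedIn (N (i₀ + j)) σ = fixedIn (N (i₀ + j)) (s j) := hσ j
  have key : ∀ (F F' : IntermediateField K (AlgebraicClosure K)) (hF : F ≤ N (i₀ + j))
      (hF' : F' ≤ N (i₀ + j)), F = F' → ¬ InertPair U E F' (N (i₀ + j)) hF' →
        ¬ InertPair U E F (N (i₀ + j)) hF := by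
    rintro F F' hF hF' rfl h
    exact h
  exact key _ _ _ _ h1 (hsbad j)

theorem nagao_of_pairs (U : Set ℂ) (E : WeierstrassCurve K) [E.IsElliptic]
    (N : ℕ → IntermediateField K (AlgebraicClosure K)) (hmono : Monotone N)
    (hfin : ∀ i, FiniteDimensional K (N i)) (hgal : ∀ i, IsGalois K (N i))
    (hex : ∀ x, ∃ i, x ∈ N i)
    (h : ∀ σ : Gal(AlgebraicClosure K/K), ∃ᶠ i in atTop,
      InertPair U E (fixedIn (N i) σ) (N i) (fixedIn_le (N i) σ))
    (F : IntermediateField K (AlgebraicClosure K)) [FiniteDimensional K F] :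
    Nagao U (E.map (algebraMap K F)) := by
  by_contra hbad
  obtain ⟨i₀, hi₀⟩ := le_of_le_iSup N hmono F (fun x _ => hex x)
  have := hfin i₀
  have := hgal i₀
  obtain ⟨τ₀, hτ₀⟩ : ∃ τ₀, ¬ InertPair U E (fixedIn (N i₀) τ₀) (N i₀) (fixedIn_le (N i₀) τ₀) := by
    by_contra hcon
    push Not at hcon
    exact hbad (pair_start U E hi₀ fun τ _ => hcon τ)
  obtain ⟨σ, -, hσ⟩ := exists_bad U E N hmono hfin hgal i₀ τ₀ hτ₀
  refine h σ ?_
  rw [eventually_atTop]
  exact ⟨i₀, hσ⟩

end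

end Pool.Agent.MP_3d3918.H97
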