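import Pool.Agent.Lib.MP_3d3918_nt.H97.Step

/-!
# The trivial extension
-/

set_option autoImplicit false
set_option linter.unusedSectionVars false

open Filter Topology TensorProduct WeierstrassCurve

namespace Pool.Agent.MP_3d3918.H97

open Pool.Agent.MP_3d3918

theorem finrank_V {A : Type} [AddCommGroup A] {r : ℕ} (h : Module.rank ℤ A = r) :
    Module.finrank ℚ (ℚ ⊗[ℤ] A) = r := by
  have h0 : Module.rank ℚ (ℚ ⊗[ℤ] A) = Module.rank ℤ A := by
    rw [IsLocalization.rank_eq ℚ (nonZeroDivisors ℤ) le_rfl]
    have h1 := IsLocalizedModule.lift_rank_eq (nonZeroDivisors ℤ) (toV A) le_rfl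
    rw [Cardinal.lift_id, Cardinal.lift_id] at h1
    exact h1
  unfold Module.finrank
  rw [h0, h, Cardinal.toNat_natCast]

section

variable {K : Type} [Field K]

open Classical in
theorem pointTrace_one {F L : Type} [Field F] [Field L] [Algebra F L] {E : WeierstrassCurve F}
    {r : ℕ} (h : mwRank (E.map (algebraMap F L)) = r) :
    pointTrace L E (1 : Gal(L/F)) = r := by
  have h1 : chi (E.baseChange L).toAffine.Point (1 : Gal(L/F)) = r := by
    unfold chi
    have h2 : bact (A := (E.baseChange L).toAffine.Point) (1 : Gal(L/F)) = LinearMap.id := by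
      apply ext_V
      intro a
      rw [bact_toV, one_smul]
      rfl
    have h3 := point_finite (E := E) h
    rw [h2, LinearMap.trace_id]
    rw [mwRank_eq inferInstance] at h
    exact congrArg _ (finrank_V (A := (E.baseChange L).toAffine.Point) h)
  exact h1

theorem inert_triv (R : Subring K) (p : ℕ) [Fact p.Prime] (y : R →+* ZMod p) :
    Inert (F := K) (N := K) 0 R y := by
  have hle : ringOf (F := K) (0 : K) R ≤ R := by
    unfold ringOf
    rw [Subring.closure_le]
    rintro _ (⟨r, hr, rfl⟩ | hx)
    · exact hr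
    · rw [Set.mem_singleton_iff.1 hx]
      exact zero_mem R
  refine ⟨ZMod p, inferInstance, RingHom.id _, y.comp (Subring.inclusion hle), ?_, ?_, ?_⟩
  · exact ZMod.ringHom_surjective _
  · rw [Module.finrank_self, pow_one, Nat.card_zmod]
  · intro r
    rfl

theorem inertSum_triv (R : Subring K) (p : ℕ) [Fact p.Prime] (W : WeierstrassCurve R) :
    inertSum (F := K) (0 : K) p R W = fibreSum p R W := by
  unfold inertSum fibreSum
  exact finsum_comp_equiv (Equiv.subtypeUnivEquiv (inert_triv R p))
    (f := fun y => trace p (W.map y))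

theorem meanTrace_triv (E : WeierstrassCurve K) {r : ℕ}
    (h : mwRank (E.map (algebraMap K K)) = r) : meanTrace K E = r := by
  classical
  have hs : Subsingleton Gal(K/K) := ⟨fun a b => by
    ext x
    have h1 := a.commutes x
    have h2 := b.commutes x
    exact h1.trans h2.symm⟩
  have hu : Unique Gal(K/K) := ⟨⟨1⟩, fun a => Subsingleton.elim _ _⟩
  have h1 : Nat.card Gal(K/K) = 1 := Nat.card_unique
  unfold meanTrace
  rw [h1, Nat.cast_one, div_one]
  have htop : Subgroup.zpowers (1 : Gal(K/K)) = ⊤ := by
    rw [eq_top_iff]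
    intro x _
    rw [Subsingleton.elim x 1]
    exact Subgroup.mem_zpowers _
  let u : {g : Gal(K/K) // Subgroup.zpowers g = ⊤} := ⟨1, htop⟩
  rw [finsum_eq_single _ u (fun g hg => absurd (Subtype.ext (Subsingleton.elim _ _)) hg)]
  exact pointTrace_one h

/-- The formula for the inert points of the trivial extension is Nagao's formula. -/
theorem nagao_of_inert [CharZero K] (U : Set ℂ) (E : WeierstrassCurve K)
    (h : InertNagao K U E) : Nagao U E := by
  obtain ⟨⟨r, hr⟩, h⟩ := h
  obtain ⟨R₀, hR₀, h⟩ := h 0 (by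
    rw [eq_top_iff]
    intro x _
    exact IntermediateField.algebraMap_mem _ x)
  refine ⟨R₀, hR₀, fun R hR hle => ?_⟩
  obtain ⟨W, hW, hWu, hgood⟩ := h R hR hle
  refine NagaoAt.mk W hW hWu r ?_ ?_
  · have hE : E.map (algebraMap K K) = E := E.map_id
    rwa [hE] at hr
  · rw [meanTrace_triv E hr] at hgood
    have h1 : inertTerm (F := K) (0 : K) R W = term K R W := by
      funext s p
      have hp : Fact (p : ℕ).Prime := ⟨p.2⟩
      unfold inertTerm term
      rw [inertSum_triv]
    rw [h1] at hgood
    have h2 : ((r : ℚ) : ℂ) = (r : ℂ) := by norm_cast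
    rwa [h2] at hgood

end

end Pool.Agent.MP_3d3918.H97
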